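import Pool.Agent.Helper78.BigMap.Goals

set_option autoImplicit false

open Topology Filter Set Metric Pool.Agent.Helper78.BigMap

namespace Pool.Agent.Helper31.BigB

universe v w

section
variable {S : Type v} [TopologicalSpace S]
variable {E : Set ℝ} {j : OpenPartialHomeomorph ℂ S}

lemma closed_inC (hP : Patch E j) : IsClosed (inC E) :=
  (hP.compact.image Complex.continuous_ofReal).isClosed

lemma ball_sub (hP : Patch E j) {x : ℝ} (hx : x ∈ E) {r : ℝ} (hr : r ≤ 1) :
    ball (x : ℂ) r \ inC E ⊆ j.source := by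
  rw [hP.source]
  rintro z ⟨hz, hz2⟩
  refine ⟨?_, hz2⟩
  rw [mem_ball, dist_eq_norm] at hz ⊢
  have h1 := hP.sub hx
  have h2 : ‖(x : ℂ)‖ < 1 := by
    rw [Complex.norm_real, Real.norm_eq_abs, abs_lt]
    exact h1
  calc ‖z - 0‖ = ‖(z - x) + x‖ := by congr 1; ring
    _ ≤ ‖z - x‖ + ‖(x : ℂ)‖ := norm_add_le _ _
    _ < 2 := by linarith

lemma germ_of_mem (f : S → S) {z : ℂ} (hz : z ∈ inC E) : germ E j f z = z := by
  simp [germ, hz]

lemma germ_of_notMem (f : S → S) {z : ℂ} (hz : z ∉ inC E) :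
    germ E j f z = j.symm (f (j z)) := by
  simp [germ, hz]

variable {T : Type w} [TopologicalSpace T]

/-- the parametrised statement -/
lemma main (hP : Patch E j) {G : T → S → S} (hG : Continuous (fun p : T × S => G p.1 p.2))
    (hinj : ∀ t, Function.Injective (G t))
    (hnear : ∀ x ∈ E, ∀ ε > 0, ∃ δ > 0, ∀ t : T, ∀ z ∈ ball (x : ℂ) δ \ inC E,
        G t (j z) ∈ j '' (ball (x : ℂ) ε \ inC E)) {e : ℝ} (he : e ∈ E) :
    ∃ δ > 0, δ ≤ 1 ∧
      ContinuousOn (fun p : T × ℂ => germ E j (G p.1) p.2) (univ ×ˢ ball (e : ℂ) δ) ∧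
      ∀ t, InjOn (germ E j (G t)) (ball (e : ℂ) δ) := by
  obtain ⟨δ0, hδ0, hδ⟩ := hnear e he 1 one_pos
  set δ := min δ0 1 with hδdef
  have hδpos : 0 < δ := lt_min hδ0 one_pos
  have hδ1 : δ ≤ 1 := min_le_right _ _
  have hcl := closed_inC hP
  have htar : ∀ t, ∀ z ∈ ball (e : ℂ) δ \ inC E, G t (j z) ∈ j.target := by
    intro t z hz
    obtain ⟨y, hy, hy2⟩ := hδ t z ⟨ball_subset_ball (min_le_left _ _) hz.1, hz.2⟩
    rw [← hy2]
    exact j.map_source (ball_sub hP he le_rfl hy)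
  refine ⟨δ, hδpos, hδ1, ?_, ?_⟩
  · rintro ⟨t0, z0⟩ ⟨-, hz0⟩
    apply ContinuousAt.continuousWithinAt
    by_cases hzE : z0 ∈ inC E
    · -- at a point of `E`
      obtain ⟨x, hx, rfl⟩ := hzE
      have hval : germ E j (G t0) (x : ℂ) = x := germ_of_mem _ ⟨x, hx, rfl⟩
      rw [Metric.continuousAt_iff']
      intro ε hε
      obtain ⟨δ', hδ', hn⟩ := hnear x hx (min ε 1) (lt_min hε one_pos)
      have hev : ∀ᶠ p : T × ℂ in 𝓝 (t0, (x : ℂ)), p.2 ∈ ball (x : ℂ) (min δ' ε) := by
        have h1 : ContinuousAt (fun p : T × ℂ => p.2) (t0, (x : ℂ)) := continuousAt_snd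
        exact h1 (ball_mem_nhds _ (lt_min hδ' hε))
      filter_upwards [hev] with p hp
      show dist (germ E j (G p.1) p.2) (germ E j (G t0) (x : ℂ)) < ε
      rw [hval]
      by_cases hpE : p.2 ∈ inC E
      · rw [germ_of_mem _ hpE]
        exact (mem_ball.1 hp).trans_le (min_le_right _ _)
      · rw [germ_of_notMem _ hpE]
        obtain ⟨y, hy, hy2⟩ := hn p.1 p.2 ⟨ball_subset_ball (min_le_left _ _) hp, hpE⟩
        have hys : y ∈ j.source := ball_sub hP hx (min_le_right _ _) hy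
        rw [← hy2, j.left_inv hys]
        exact (mem_ball.1 hy.1).trans_le (min_le_left _ _)
    · have hzs : z0 ∈ j.source := ball_sub hP he hδ1 ⟨hz0, hzE⟩
      have hev : ∀ᶠ p : T × ℂ in 𝓝 (t0, z0), p.2 ∈ (inC E)ᶜ := by
        have h1 : ContinuousAt (fun p : T × ℂ => p.2) (t0, z0) := continuousAt_snd
        exact h1 (hcl.isOpen_compl.mem_nhds hzE)
      have hev2 : (fun p : T × ℂ => j.symm (G p.1 (j p.2)))
          =ᶠ[𝓝 (t0, z0)] (fun p : T × ℂ => germ E j (G p.1) p.2) := by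
        filter_upwards [hev] with p hp
        exact (germ_of_notMem _ hp).symm
      refine ContinuousAt.congr ?_ hev2
      have h1 : ContinuousAt (fun p : T × ℂ => (p.1, j p.2)) (t0, z0) := by
        refine continuousAt_fst.prodMk ?_
        exact ContinuousAt.comp (f := fun p : T × ℂ => p.2) (g := j) (x := (t0, z0))
          (j.continuousAt hzs) continuousAt_snd
      have h2 : ContinuousAt (fun p : T × ℂ => G p.1 (j p.2)) (t0, z0) :=
        ContinuousAt.comp (f := fun p : T × ℂ => (p.1, j p.2))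
          (g := fun p : T × S => G p.1 p.2) (x := (t0, z0)) hG.continuousAt h1
      exact ContinuousAt.comp (f := fun p : T × ℂ => G p.1 (j p.2)) (g := j.symm)
        (x := (t0, z0)) (j.symm.continuousAt (htar t0 z0 ⟨hz0, hzE⟩)) h2
  · intro t z hz z' hz' heq
    have key : ∀ a ∈ ball (e : ℂ) δ, a ∉ inC E → germ E j (G t) a ∉ inC E := by
      intro a ha haE
      rw [germ_of_notMem _ haE]
      have h1 := j.map_target (htar t a ⟨ha, haE⟩)
      rw [hP.source] at h1
      exact h1.2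
    by_cases h1 : z ∈ inC E
    · by_cases h2 : z' ∈ inC E
      · rwa [germ_of_mem _ h1, germ_of_mem _ h2] at heq
      · exfalso
        apply key z' hz' h2
        rw [← heq, germ_of_mem _ h1]
        exact h1
    · by_cases h2 : z' ∈ inC E
      · exfalso
        apply key z hz h1
        rw [heq, germ_of_mem _ h2]
        exact h2
      · rw [germ_of_notMem _ h1, germ_of_notMem _ h2] at heq
        have h3 := j.symm.injOn (htar t z ⟨hz, h1⟩) (htar t z' ⟨hz', h2⟩) heq
        have h4 := hinj t h3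
        exact j.injOn (ball_sub hP he hδ1 ⟨hz, h1⟩) (ball_sub hP he hδ1 ⟨hz', h2⟩) h4

end

theorem goalB1 : GoalB1.{v} := by
  intro S _ _ E j hP f hf e he
  obtain ⟨δ, hδ, -, hc, hi⟩ := main (T := Unit) hP (G := fun _ => f)
    (f.continuous.comp continuous_snd) (fun _ => f.injective)
    (by
      intro x hx ε hε
      obtain ⟨δ, hδ, h⟩ := hf x hx ε hε
      exact ⟨δ, hδ, fun _ => h⟩) he
  refine ⟨δ, hδ, ?_, hi (), fun x hx _ => germ_of_mem _ ⟨x, hx, rfl⟩⟩
  exact hc.comp (f := fun z : ℂ => ((), z)) (by fun_prop) (fun z hz => ⟨mem_univ _, hz⟩)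

theorem goalB2 : GoalB2.{v} := by
  intro S _ _ E j hP f g _ hg e he
  obtain ⟨δ, hδ, h⟩ := hg e he 1 one_pos
  refine ⟨δ, hδ, fun z hz => ?_⟩
  by_cases hzE : z ∈ inC E
  · rw [germ_of_mem _ hzE, germ_of_mem _ hzE, germ_of_mem _ hzE]
  · obtain ⟨y, hy, hy2⟩ := h z ⟨hz, hzE⟩
    have hys : y ∈ j.source := ball_sub hP he le_rfl hy
    have h1 : germ E j g z = y := by
      rw [germ_of_notMem _ hzE, ← hy2, j.left_inv hys]
    rw [h1, germ_of_notMem _ hzE, germ_of_notMem _ hy.2, hy2]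
    rfl

theorem goalB3 : GoalB3.{v} := by
  intro S _ _ E j hP H hH1 hH0 hnear e he
  have hcont : Continuous (fun p : unitInterval × S => (H (p.1, p.2)).2) := by
    have : Continuous (fun p : unitInterval × S => (H p).2) := continuous_snd.comp H.continuous
    exact this
  have hinj : ∀ t : unitInterval, Function.Injective (fun x => (H (t, x)).2) := by
    intro t x y hxy
    have h1 : H (t, x) = H (t, y) := by
      apply Prod.ext
      · rw [hH1, hH1]
      · exact hxy
    exact (Prod.ext_iff.1 (H.injective h1)).2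
  obtain ⟨δ, hδ, hδ1, hc, hi⟩ := main (T := unitInterval) hP (G := fun t x => (H (t, x)).2)
    hcont hinj hnear he
  refine ⟨δ, hδ, fun t => germ E j (fun x => (H (t, x)).2), hc, ?_, ?_, ?_⟩
  · intro t
    refine ⟨hδ, ?_, hi t, fun x hx _ => germ_of_mem _ ⟨x, hx, rfl⟩⟩
    exact hc.comp (f := fun z : ℂ => (t, z)) (by fun_prop) (fun z hz => ⟨mem_univ _, hz⟩)
  · intro z hz
    by_cases hzE : z ∈ inC E
    · exact germ_of_mem _ hzE
    · show germ E j (fun x => (H (0, x)).2) z = z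
      rw [germ_of_notMem _ hzE, hH0, j.left_inv (ball_sub hP he hδ1 ⟨hz, hzE⟩)]
  · intro f hf z _
    have : (fun x => (H (1, x)).2) = f := funext hf
    show germ E j (fun x => (H (1, x)).2) z = germ E j f z
    rw [this]

end Pool.Agent.Helper31.BigB
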