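import Pool.Agent.Helper50.StarFinite3

set_option autoImplicit false
set_option linter.unusedSectionVars false

open Set Metric Filter Topology
open Pool.Agent.Helper50.StarFinite

namespace Pool.Agent.Helper31.StarFiniteB

universe u v

variable {E : Type u} [NormedAddCommGroup E] [NormedSpace ℝ E]
variable {ι : Type v} {c : ι → E} {r : ι → ℝ}

/-- The flat pieces lemma, for weak neighbourhoods. -/
lemma flatNhd (hcov : (⋃ i, closedBall (c i) (r i)) = univ)
    (hstar : ∀ i, {j : ι | (closedBall (c i) (r i) ∩ closedBall (c j) (r j)).Nonempty}.Finite)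
    {U : Set E} (hU : Convex ℝ U) {p : E} (hp : p ∈ U)
    (hF : ∀ z ∈ U, Sing c r z → ∀ j, p ∈ closedBall (c j) (r j) → z ∉ closedBall (c j) (r j)) :
    ∃ s : Finset (E →L[ℝ] ℝ), ∃ ε : ℝ, 0 < ε ∧ ∀ z ∈ U, (∀ g ∈ s, |g (z - p)| < ε) →
      ∃ j, p ∈ closedBall (c j) (r j) ∧ z ∈ closedBall (c j) (r j) := by
  classical
  set J := {j : ι | p ∈ closedBall (c j) (r j)} with hJ
  have hJf : J.Finite := ptFinite hcov hstar p
  set J2 := (⋃ j ∈ J, {i : ι | (closedBall (c j) (r j) ∩ closedBall (c i) (r i)).Nonempty}) \ J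
    with hJ2
  have hJ2f : J2.Finite := (hJf.biUnion (fun j _ => hstar j)).sdiff
  have hsep : ∀ i : ι, i ∈ J2 → ∃ g : E →L[ℝ] ℝ, ∃ u : ℝ,
      (∀ b ∈ closedBall (c i) (r i), g b < u) ∧ u < g p := by
    intro i hi
    have hpi : p ∉ closedBall (c i) (r i) := fun h => hi.2 h
    obtain ⟨f, u, h1, h2⟩ := geometric_hahn_banach_closed_point
      (convex_closedBall (c i) (r i)) isClosed_closedBall hpi
    exact ⟨f, u, h1, h2⟩
  choose! g u hgu using hsep
  -- a common gap
  obtain ⟨ε, hε, hεu⟩ : ∃ ε : ℝ, 0 < ε ∧ ∀ i ∈ J2, u i < g i p - ε := by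
    rcases J2.eq_empty_or_nonempty with hemp | hne
    · exact ⟨1, one_pos, by simp [hemp]⟩
    · obtain ⟨i0, hi0, hmin⟩ := hJ2f.exists_minimalFor (fun i => g i p - u i) J2 hne
      have hpos : 0 < g i0 p - u i0 := by linarith [(hgu i0 hi0).2]
      refine ⟨(g i0 p - u i0) / 2, by positivity, ?_⟩
      intro i hi
      have : g i0 p - u i0 ≤ g i p - u i := by
        rcases le_total (g i0 p - u i0) (g i p - u i) with h | h
        · exact h
        · exact hmin hi h
      linarith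
  refine ⟨hJ2f.toFinset.image g, ε, hε, ?_⟩
  set D : Set E := ⋃ j ∈ J, closedBall (c j) (r j) with hD
  have hDcl : IsClosed D := hJf.isClosed_biUnion (fun j _ => isClosed_closedBall)
  set A : Set E := {z | z ∈ U ∧ ∀ i ∈ J2, u i < g i z} with hA
  have hAconv : Convex ℝ A := by
    intro x hx y hy a b ha hb hab
    refine ⟨hU hx.1 hy.1 ha hb hab, ?_⟩
    intro i hi
    rw [map_add, map_smul, map_smul, smul_eq_mul, smul_eq_mul]
    have h1 := hx.2 i hi
    have h2 := hy.2 i hi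
    have h3 : u i = a * u i + b * u i := by rw [← add_mul, hab, one_mul]
    rw [h3]
    rcases ha.eq_or_lt with h0 | h0
    · rw [← h0] at hab ⊢
      have : b = 1 := by linarith
      rw [this]; linarith
    · have h4 : a * u i < a * g i x := mul_lt_mul_of_pos_left h1 h0
      have h5 : b * u i ≤ b * g i y := mul_le_mul_of_nonneg_left h2.le hb
      linarith
  have hpA : p ∈ A := ⟨hp, fun i hi => (hgu i hi).2⟩
  have hint : ∀ z ∈ A, z ∈ D → z ∈ interior D := by
    intro z hzA hzD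
    obtain ⟨j0, hj0, hzj0⟩ : ∃ j ∈ J, z ∈ closedBall (c j) (r j) := by
      simpa [hD] using hzD
    have hns : ¬ Sing c r z := fun hs => hF z hzA.1 hs j0 hj0 hzj0
    obtain ⟨δ, hδ, hsub⟩ := nhd_of_not_sing hcov hns
    rw [mem_interior]
    refine ⟨ball z δ, ?_, isOpen_ball, mem_ball_self hδ⟩
    intro y hy
    obtain ⟨j, hzj, hyj⟩ := hsub y hy
    have hjJ : j ∈ J := by
      by_contra hjJ
      have hj2 : j ∈ J2 := by
        refine ⟨?_, hjJ⟩
        simp only [mem_iUnion, mem_ofPred_eq]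
        exact ⟨j0, hj0, ⟨z, hzj0, hzj⟩⟩
      have h1 := (hgu j hj2).1 z hzj
      have h2 := hzA.2 j hj2
      linarith
    simp only [hD, mem_iUnion]
    exact ⟨j, hjJ, hyj⟩
  have hpD : p ∈ D := by
    have hpc : p ∈ ⋃ i, closedBall (c i) (r i) := by rw [hcov]; trivial
    obtain ⟨j, hj⟩ := mem_iUnion.1 hpc
    simp only [hD, mem_iUnion]
    exact ⟨j, hj, hj⟩
  have hsub : A ⊆ interior D := by
    refine hAconv.isPreconnected.subset_left_of_subset_union isOpen_interior
      hDcl.isOpen_compl ?_ ?_ ⟨p, hpA, hint p hpA hpD⟩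
    · exact disjoint_compl_right.mono_left interior_subset
    · intro z hz
      by_cases hzD : z ∈ D
      · exact Or.inl (hint z hz hzD)
      · exact Or.inr hzD
  intro z hzU hz
  have hzA : z ∈ A := by
    refine ⟨hzU, ?_⟩
    intro i hi
    have h1 := hz (g i) (Finset.mem_image.2 ⟨i, hJ2f.mem_toFinset.2 hi, rfl⟩)
    rw [map_sub, abs_lt] at h1
    have h2 := hεu i hi
    linarith [h1.1]
  have : z ∈ D := interior_subset (hsub hzA)
  simp only [hD, mem_iUnion] at this
  obtain ⟨j, hj, hzj⟩ := this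
  exact ⟨j, hj, hzj⟩

/-- `d` is dominated by a bounded weakly null net: there is a bound `K` such that for every
finite set `A` of vectors, every finite set `F` of functionals and every `ε > 0` some `w` with
`‖w‖ ≤ K` is `ε`-small on `F` and satisfies `‖a + d‖ ≤ ‖a + w‖ + ε` for all `a ∈ A`. -/
def Dominated (d : E) : Prop :=
  ∃ K : ℝ, ∀ (A : Finset E) (F : Finset (E →L[ℝ] ℝ)) (ε : ℝ), 0 < ε →
    ∃ w : E, ‖w‖ ≤ K ∧ (∀ f ∈ F, |f w| < ε) ∧ ∀ a ∈ A, ‖a + d‖ ≤ ‖a + w‖ + ε

lemma Dominated.add {d e : E} (hd : Dominated d) (he : Dominated e) : Dominated (d + e) := by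
  classical
  obtain ⟨K, hK⟩ := hd
  obtain ⟨L, hL⟩ := he
  refine ⟨K + L, ?_⟩
  intro A F ε hε
  obtain ⟨w, hw, hwF, hwA⟩ := hK (A.image (fun a => a + e)) F (ε / 2) (by positivity)
  obtain ⟨z, hz, hzF, hzA⟩ := hL (A.image (fun a => a + w)) F (ε / 2) (by positivity)
  refine ⟨w + z, (norm_add_le _ _).trans (add_le_add hw hz), ?_, ?_⟩
  · intro f hf
    rw [map_add]
    calc |f w + f z| ≤ |f w| + |f z| := abs_add_le _ _
      _ < ε := by linarith [hwF f hf, hzF f hf]
  · intro a ha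
    have h1 := hwA (a + e) (Finset.mem_image.2 ⟨a, ha, rfl⟩)
    have h2 := hzA (a + w) (Finset.mem_image.2 ⟨a, ha, rfl⟩)
    have e1 : a + (d + e) = a + e + d := by abel
    have e2 : a + (w + z) = a + w + z := by abel
    have e3 : a + e + w = a + w + e := by abel
    rw [e1, e2]
    rw [e3] at h1
    linarith

lemma Dominated.pos_smul {d : E} (hd : Dominated d) {t : ℝ} (ht : 0 < t) :
    Dominated (t • d) := by
  classical
  obtain ⟨K, hK⟩ := hd
  refine ⟨t * K, ?_⟩
  intro A F ε hε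
  obtain ⟨w, hw, hwF, hwA⟩ := hK (A.image (fun a => t⁻¹ • a)) F (ε / t) (by positivity)
  refine ⟨t • w, ?_, ?_, ?_⟩
  · rw [norm_smul, Real.norm_eq_abs, abs_of_pos ht]
    exact mul_le_mul_of_nonneg_left hw ht.le
  · intro f hf
    rw [map_smul, smul_eq_mul, abs_mul, abs_of_pos ht]
    have := hwF f hf
    rw [lt_div_iff₀ ht] at this
    linarith
  · intro a ha
    have h1 := hwA (t⁻¹ • a) (Finset.mem_image.2 ⟨a, ha, rfl⟩)
    have h2 : ∀ x : E, ‖a + t • x‖ = t * ‖t⁻¹ • a + x‖ := by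
      intro x
      have : a + t • x = t • (t⁻¹ • a + x) := by
        rw [smul_add, smul_smul, mul_inv_cancel₀ ht.ne', one_smul]
      rw [this, norm_smul, Real.norm_eq_abs, abs_of_pos ht]
    rw [h2, h2]
    have h3 := mul_le_mul_of_nonneg_left h1 ht.le
    have h4 : t * (‖t⁻¹ • a + w‖ + ε / t) = t * ‖t⁻¹ • a + w‖ + ε := by
      field_simp
    linarith

lemma Dominated.neg {d : E} (hd : Dominated d) : Dominated (-d) := by
  classical
  obtain ⟨K, hK⟩ := hd
  refine ⟨K, ?_⟩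
  intro A F ε hε
  obtain ⟨w, hw, hwF, hwA⟩ := hK (A.image (fun a => -a)) F ε hε
  refine ⟨-w, by rwa [norm_neg], ?_, ?_⟩
  · intro f hf
    rw [map_neg, abs_neg]
    exact hwF f hf
  · intro a ha
    have h1 := hwA (-a) (Finset.mem_image.2 ⟨a, ha, rfl⟩)
    have e1 : a + -d = -(-a + d) := by abel
    have e2 : a + -w = -(-a + w) := by abel
    rw [e1, e2, norm_neg, norm_neg]
    exact h1

/-- The key step: near a good centre `x`, the complement of the union of the balls through `x`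
is invariant under small translations in a dominated direction. -/
lemma translate
    (hcov : (⋃ i, closedBall (c i) (r i)) = univ)
    (hstar : ∀ i, {j : ι | (closedBall (c i) (r i) ∩ closedBall (c j) (r j)).Nonempty}.Finite)
    {x : E} {ε : ℝ} (hε : 0 < ε)
    (h1 : ∃ i, x ∈ closedBall (c i) (r i) ∧
      ∀ z ∈ ball x ε, Sing c r z → z ∈ closedBall (c i) (r i))
    (h2 : ∀ i, (closedBall (c i) (r i) ∩ ball x ε).Nonempty → x ∈ closedBall (c i) (r i) ∨
        ∀ j, x ∈ closedBall (c j) (r j) →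
          Disjoint (closedBall (c i) (r i)) (closedBall (c j) (r j)))
    {d : E} (hd : Dominated d) :
    ∃ σ : ℝ, 0 < σ ∧ ∀ p ∈ ball x (ε / 2), (∀ j, x ∈ closedBall (c j) (r j) →
      p ∉ closedBall (c j) (r j)) → ∀ s : ℝ, |s| ≤ σ →
      ∀ j, x ∈ closedBall (c j) (r j) → p + s • d ∉ closedBall (c j) (r j) := by
  classical
  obtain ⟨i0, hi0, hloc⟩ := h1
  -- one-sided version
  have key : ∀ d : E, Dominated d → ∃ σ : ℝ, 0 < σ ∧ ∀ p ∈ ball x (ε / 2),
      (∀ j, x ∈ closedBall (c j) (r j) → p ∉ closedBall (c j) (r j)) →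
      ∀ s : ℝ, 0 ≤ s → s ≤ σ →
      ∀ j, x ∈ closedBall (c j) (r j) → p + s • d ∉ closedBall (c j) (r j) := by
    intro d hd
    obtain ⟨K, hK⟩ := hd
    set σ : ℝ := ε / 2 / (|K| + 1) with hσ
    have hσ0 : 0 < σ := by positivity
    refine ⟨σ, hσ0, ?_⟩
    intro p hp hpC s hs0 hsσ l hl hcon
    have hpε : p ∈ ball x ε := ball_subset_ball (by linarith) hp
    have hdisj : ∀ j, p ∈ closedBall (c j) (r j) → ∀ l, x ∈ closedBall (c l) (r l) →
        Disjoint (closedBall (c j) (r j)) (closedBall (c l) (r l)) := by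
      intro j hj
      rcases h2 j ⟨p, hj, hpε⟩ with h | h
      · exact absurd hj (hpC j h)
      · exact h
    obtain ⟨F, δ, hδ, hflat⟩ := flatNhd hcov hstar (convex_ball x ε) hpε (by
      intro z hz hsing j hj hzj
      exact (Set.disjoint_left.1 (hdisj j hj i0 hi0)) hzj (hloc z hz hsing))
    have hJf := ptFinite hcov hstar p
    set A : Finset E := hJf.toFinset.image (fun j => σ⁻¹ • (p - c j)) with hA
    -- for every `η > 0` some ball through `p` nearly contains `p + σ • d`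
    have hη : ∀ η : ℝ, 0 < η → ∃ j ∈ hJf.toFinset, ‖p + σ • d - c j‖ ≤ r j + η := by
      intro η hη
      obtain ⟨w, hw, hwF, hwA⟩ := hK A F (min (δ / σ) (η / σ))
        (lt_min (by positivity) (by positivity))
      have hwn : ‖σ • w‖ < ε / 2 := by
        rw [norm_smul, Real.norm_eq_abs, abs_of_pos hσ0]
        calc σ * ‖w‖ ≤ σ * |K| :=
              mul_le_mul_of_nonneg_left (hw.trans (le_abs_self K)) hσ0.le
          _ < σ * (|K| + 1) := by nlinarith
          _ = ε / 2 := by rw [hσ]; field_simp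
      have hzU : p + σ • w ∈ ball x ε := by
        rw [mem_ball, dist_eq_norm] at hp ⊢
        calc ‖p + σ • w - x‖ = ‖(p - x) + σ • w‖ := by congr 1; abel
          _ ≤ ‖p - x‖ + ‖σ • w‖ := norm_add_le _ _
          _ < ε := by linarith
      obtain ⟨j, hj1, hj2⟩ := hflat (p + σ • w) hzU (by
        intro g hg
        rw [add_sub_cancel_left, map_smul, smul_eq_mul, abs_mul, abs_of_pos hσ0]
        have := (hwF g hg).trans_le (min_le_left _ _)
        rw [lt_div_iff₀ hσ0] at this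
        linarith)
      refine ⟨j, hJf.mem_toFinset.2 hj1, ?_⟩
      have hA' := hwA (σ⁻¹ • (p - c j))
        (Finset.mem_image.2 ⟨j, hJf.mem_toFinset.2 hj1, rfl⟩)
      have hsc : ∀ y : E, ‖p + σ • y - c j‖ = σ * ‖σ⁻¹ • (p - c j) + y‖ := by
        intro y
        have : p + σ • y - c j = σ • (σ⁻¹ • (p - c j) + y) := by
          rw [smul_add, smul_smul, mul_inv_cancel₀ hσ0.ne', one_smul]
          abel
        rw [this, norm_smul, Real.norm_eq_abs, abs_of_pos hσ0]
      rw [mem_closedBall, dist_eq_norm, hsc w] at hj2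
      rw [hsc d]
      have h3 := mul_le_mul_of_nonneg_left hA' hσ0.le
      have h4 : σ * min (δ / σ) (η / σ) ≤ η := by
        have : min (δ / σ) (η / σ) ≤ η / σ := min_le_right _ _
        calc σ * min (δ / σ) (η / σ) ≤ σ * (η / σ) := mul_le_mul_of_nonneg_left this hσ0.le
          _ = η := by field_simp
      rw [mul_add] at h3
      linarith
    -- hence some ball through `p` contains `p + σ • d`
    obtain ⟨j, hj, hjn⟩ : ∃ j ∈ hJf.toFinset, ‖p + σ • d - c j‖ ≤ r j := by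
      by_contra hcon2
      push Not at hcon2
      rcases hJf.toFinset.eq_empty_or_nonempty with hemp | hne
      · obtain ⟨j, hj, -⟩ := hη 1 one_pos
        rw [hemp] at hj
        simp at hj
      · obtain ⟨j0, hj0, hmin⟩ := hJf.toFinset.exists_min_image
          (fun j => ‖p + σ • d - c j‖ - r j) hne
        have hpos : 0 < ‖p + σ • d - c j0‖ - r j0 := by linarith [hcon2 j0 hj0]
        obtain ⟨j, hj, hjn⟩ := hη ((‖p + σ • d - c j0‖ - r j0) / 2) (by positivity)
        have := hmin j hj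
        linarith
    have hjp : p ∈ closedBall (c j) (r j) := hJf.mem_toFinset.1 hj
    have hjd : p + σ • d ∈ closedBall (c j) (r j) := by
      rw [mem_closedBall, dist_eq_norm]; exact hjn
    have hseg : p + s • d ∈ closedBall (c j) (r j) := by
      have h5 : p + s • d = (1 - s / σ) • p + (s / σ) • (p + σ • d) := by
        have : (s / σ) • (σ • d) = s • d := by
          rw [smul_smul]; congr 1; field_simp
        rw [smul_add, this]
        module
      rw [h5]
      refine convex_closedBall (c j) (r j) hjp hjd ?_ (by positivity) (by ring)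
      rw [sub_nonneg, div_le_one hσ0]
      exact hsσ
    exact Set.disjoint_left.1 (hdisj j hjp l hl) hseg hcon
  obtain ⟨σ1, hσ1, hk1⟩ := key d hd
  obtain ⟨σ2, hσ2, hk2⟩ := key (-d) hd.neg
  refine ⟨min σ1 σ2, lt_min hσ1 hσ2, ?_⟩
  intro p hp hpC s hs l hl
  rcases le_total 0 s with h0 | h0
  · refine hk1 p hp hpC s h0 ?_ l hl
    rw [abs_of_nonneg h0] at hs
    exact hs.trans (min_le_left _ _)
  · have h3 := hk2 p hp hpC (-s) (by linarith) (by
      rw [abs_of_nonpos h0] at hs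
      exact hs.trans (min_le_right _ _)) l hl
    rwa [smul_neg, neg_smul, neg_neg] at h3

/-- Main theorem: a star-finite ball covering makes the norm locally constant in all dominated
directions, on a common nonempty open set. -/
theorem locally_constant [CompleteSpace E] [TopologicalSpace.SeparableSpace E]
    (hE : ¬ FiniteDimensional ℝ E) (hr : ∀ i, 0 < r i)
    (hcov : (⋃ i, closedBall (c i) (r i)) = univ)
    (hstar : ∀ i, {j : ι | (closedBall (c i) (r i) ∩ closedBall (c j) (r j)).Nonempty}.Finite) :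
    ∃ G : Set E, IsOpen G ∧ G.Nonempty ∧ ∀ d : E, Dominated d → ∀ u ∈ G,
      ∃ s₀ : ℝ, 0 < s₀ ∧ ∀ s : ℝ, |s| ≤ s₀ → ‖u + s • d‖ = ‖u‖ := by
  classical
  obtain ⟨x, ε, hε, hs, h1, h2⟩ := exists_good hE hr hcov hstar
  obtain ⟨l, hl, b, hb, δ, hδ, hsel⟩ := select hr hcov hstar hε hs h2
  have hb0 : b ≠ 0 := by
    intro h; rw [h, norm_zero] at hb; exact zero_ne_one hb
  set G : Set E := {u | u ≠ 0 ∧ ‖(‖u‖)⁻¹ • u - b‖ < δ} with hG
  have hGo : IsOpen G := by
    rw [isOpen_iff_mem_nhds]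
    intro u hu
    have hc : ContinuousAt (fun u : E => ‖(‖u‖)⁻¹ • u - b‖) u := by
      have : ‖u‖ ≠ 0 := norm_ne_zero_iff.2 hu.1
      have h3 : ContinuousAt (fun u : E => (‖u‖)⁻¹) u :=
        continuous_norm.continuousAt.inv₀ this
      exact ((h3.smul continuousAt_id).sub continuousAt_const).norm
    filter_upwards [isOpen_ne.mem_nhds hu.1, hc.eventually (gt_mem_nhds hu.2)] with y hy1 hy2
    exact ⟨hy1, hy2⟩
  refine ⟨G, hGo, ⟨b, hb0, by rw [hb]; simpa using hδ⟩, ?_⟩
  intro d hd u hu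
  obtain ⟨σ, hσ, htr⟩ := translate hcov hstar hε h1 h2 hd
  have hrl : 0 < r l := hr l
  -- outside stays outside
  have hunit : ∀ v : E, ‖v‖ = 1 → ‖v - b‖ < δ → ∀ s : ℝ, |s| ≤ σ → r l ≤ ‖r l • v + s • d‖ := by
    intro v hv hvb s hs
    by_contra hcon
    push Not at hcon
    obtain ⟨hvx, hacc⟩ := hsel v hv hvb
    set t := min (r l - ‖r l • v + s • d‖) (ε / 16) with ht
    have ht0 : 0 < t := lt_min (by linarith) (by positivity)
    obtain ⟨p, hp, hpC⟩ := hacc t ht0
    have hpx : p ∈ ball x (ε / 2) := by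
      rw [mem_ball, dist_eq_norm] at hvx ⊢
      have ht1 : t ≤ ε / 16 := min_le_right _ _
      calc ‖p - x‖ = ‖(p - (c l + r l • v)) + (c l + r l • v - x)‖ := by congr 1; abel
        _ ≤ ‖p - (c l + r l • v)‖ + ‖c l + r l • v - x‖ := norm_add_le _ _
        _ < ε / 2 := by linarith
    refine htr p hpx hpC s hs l hl ?_
    rw [mem_closedBall, dist_eq_norm]
    have ht2 : t ≤ r l - ‖r l • v + s • d‖ := min_le_left _ _
    calc ‖p + s • d - c l‖ = ‖(p - (c l + r l • v)) + (r l • v + s • d)‖ := by congr 1; abel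
      _ ≤ ‖p - (c l + r l • v)‖ + ‖r l • v + s • d‖ := norm_add_le _ _
      _ ≤ r l := by linarith
  have hge : ∀ y ∈ G, ∀ s : ℝ, |s| ≤ σ / r l * ‖y‖ → ‖y‖ ≤ ‖y + s • d‖ := by
    intro y hy s hs
    have hy0 : 0 < ‖y‖ := norm_pos_iff.2 hy.1
    have h3 := hunit ((‖y‖)⁻¹ • y) (by
      rw [norm_smul, norm_inv, norm_norm, inv_mul_cancel₀ hy0.ne']) hy.2 (r l / ‖y‖ * s) (by
      rw [abs_mul, abs_of_pos (by positivity)]
      calc r l / ‖y‖ * |s| ≤ r l / ‖y‖ * (σ / r l * ‖y‖) :=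
            mul_le_mul_of_nonneg_left hs (by positivity)
        _ = σ := by field_simp)
    have h4 : r l • (‖y‖)⁻¹ • y + (r l / ‖y‖ * s) • d = (r l / ‖y‖) • (y + s • d) := by
      rw [smul_add, smul_smul, smul_smul]
      rfl
    rw [h4, norm_smul, Real.norm_eq_abs, abs_of_pos (by positivity), div_mul_eq_mul_div,
      le_div_iff₀ hy0] at h3
    exact le_of_mul_le_mul_left h3 hrl
  -- choose `s₀` so small that `u + s • d` stays in `G`
  have hcont : ContinuousAt (fun s : ℝ => u + s • d) 0 := by fun_prop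
  have hmem : ∀ᶠ s in 𝓝 (0 : ℝ), u + s • d ∈ G := by
    apply hcont.eventually_mem
    simpa using hGo.mem_nhds hu
  obtain ⟨s1, hs1, hs1G⟩ := Metric.eventually_nhds_iff.1 hmem
  have hu0 : 0 < ‖u‖ := norm_pos_iff.2 hu.1
  refine ⟨min (s1 / 2) (σ / r l * ‖u‖), lt_min (by positivity) (by positivity), ?_⟩
  intro s hs
  have hs2 : |s| ≤ σ / r l * ‖u‖ := hs.trans (min_le_right _ _)
  have hsG : u + s • d ∈ G := by
    apply hs1G
    rw [Real.dist_eq, sub_zero]
    have : |s| ≤ s1 / 2 := hs.trans (min_le_left _ _)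
    linarith
  refine le_antisymm ?_ (hge u hu s hs2)
  by_contra hcon
  push Not at hcon
  have h5 := hge (u + s • d) hsG (-s) (by
    rw [abs_neg]
    calc |s| ≤ σ / r l * ‖u‖ := hs2
      _ ≤ σ / r l * ‖u + s • d‖ := mul_le_mul_of_nonneg_left hcon.le (by positivity))
  rw [neg_smul, add_neg_cancel_right] at h5
  linarith

/-- If the dominated vectors are dense there is no star-finite covering by closed balls. -/
theorem not_dense_dominated [CompleteSpace E] [TopologicalSpace.SeparableSpace E]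
    (hE : ¬ FiniteDimensional ℝ E) (hr : ∀ i, 0 < r i)
    (hcov : (⋃ i, closedBall (c i) (r i)) = univ)
    (hstar : ∀ i, {j : ι | (closedBall (c i) (r i) ∩ closedBall (c j) (r j)).Nonempty}.Finite) :
    ¬ Dense {d : E | Dominated d} := by
  intro hden
  obtain ⟨G, hGo, ⟨u0, hu0⟩, hG⟩ := locally_constant hE hr hcov hstar
  obtain ⟨u, huG, hu⟩ : ∃ u ∈ G, u ≠ 0 := by
    have : Nontrivial E := by
      by_contra h
      rw [not_nontrivial_iff_subsingleton] at h
      exact hE (by infer_instance)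
    have hd : Dense ({0}ᶜ : Set E) := dense_compl_singleton 0
    obtain ⟨u, h1, h2⟩ := hd.inter_open_nonempty G hGo ⟨u0, hu0⟩
    exact ⟨u, h1, h2⟩
  have hu1 : 0 < ‖u‖ := norm_pos_iff.2 hu
  obtain ⟨d, hd1, hd2⟩ := hden.inter_open_nonempty (ball u (‖u‖ / 2)) isOpen_ball
    ⟨u, mem_ball_self (by positivity)⟩
  obtain ⟨s₀, hs₀, hs⟩ := hG d hd2 u huG
  set s := min s₀ 1 with hsdef
  have hs0 : 0 < s := lt_min hs₀ one_pos
  have h3 := hs (-s) (by rw [abs_neg, abs_of_pos hs0]; exact min_le_left _ _)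
  rw [mem_ball, dist_eq_norm] at hd1
  have h4 : u + (-s) • d = (1 - s) • u + (-s) • (d - u) := by module
  have h5 : ‖u + (-s) • d‖ ≤ (1 - s) * ‖u‖ + s * ‖d - u‖ := by
    rw [h4]
    refine (norm_add_le _ _).trans (add_le_add ?_ ?_)
    · rw [norm_smul, Real.norm_eq_abs, abs_of_nonneg]
      linarith [min_le_right s₀ 1]
    · rw [norm_smul, norm_neg, Real.norm_eq_abs, abs_of_pos hs0]
  have h6 : s * ‖d - u‖ < s * (‖u‖ / 2) := mul_lt_mul_of_pos_left hd1 hs0
  nlinarith

section octahedral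

/-- homogeneous form of octahedrality -/
lemma oct_all (hoct : ∀ A : Finset E, (∀ a ∈ A, ‖a‖ = 1) → ∀ ε : ℝ, 0 < ε →
      ∃ y : E, ‖y‖ = 1 ∧ ∀ a ∈ A, 2 - ε ≤ ‖a + y‖)
    (A : Finset E) {ε : ℝ} (hε : 0 < ε) :
    ∃ y : E, ‖y‖ = 1 ∧ ∀ a ∈ A, ‖a‖ + 1 - ε ≤ ‖a + y‖ := by
  classical
  set M : ℝ := ∑ a ∈ A, ‖a‖ with hM
  have hM0 : 0 ≤ M := Finset.sum_nonneg (fun a _ => norm_nonneg a)
  have hMa : ∀ a ∈ A, ‖a‖ ≤ M := fun a ha =>
    Finset.single_le_sum (f := fun a : E => ‖a‖) (fun b _ => norm_nonneg b) ha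
  obtain ⟨y, hy, hyA⟩ := hoct ((A.erase 0).image (fun a => (‖a‖)⁻¹ • a)) (by
    intro a ha
    obtain ⟨b, hb, rfl⟩ := Finset.mem_image.1 ha
    have hb0 : ‖b‖ ≠ 0 := norm_ne_zero_iff.2 (Finset.ne_of_mem_erase hb)
    rw [norm_smul, norm_inv, norm_norm, inv_mul_cancel₀ hb0]) (ε / (M + 1)) (by positivity)
  refine ⟨y, hy, ?_⟩
  intro a ha
  by_cases ha0 : a = 0
  · rw [ha0, zero_add, hy, norm_zero]; linarith
  have hα : 0 < ‖a‖ := norm_pos_iff.2 ha0
  set α := ‖a‖ with hαdef
  set z := α⁻¹ • a with hz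
  have haz : a = α • z := by rw [hz, smul_smul, mul_inv_cancel₀ hα.ne', one_smul]
  have hzn : ‖z‖ = 1 := by
    rw [hz, norm_smul, norm_inv, hαdef, norm_norm, inv_mul_cancel₀ hα.ne']
  have h1 : 2 - ε / (M + 1) ≤ ‖z + y‖ :=
    hyA z (Finset.mem_image.2 ⟨a, Finset.mem_erase.2 ⟨ha0, ha⟩, rfl⟩)
  have hε1 : ε / (M + 1) ≤ ε := div_le_self hε.le (by linarith)
  have hε2 : α * (ε / (M + 1)) ≤ ε := by
    have : α ≤ M + 1 := by linarith [hMa a ha]
    calc α * (ε / (M + 1)) ≤ (M + 1) * (ε / (M + 1)) :=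
          mul_le_mul_of_nonneg_right this (by positivity)
      _ = ε := by field_simp
  rcases le_total 1 α with h | h
  · have e1 : α • (z + y) = (a + y) + (α - 1) • y := by rw [smul_add, ← haz]; module
    have h2 : ‖α • (z + y)‖ ≤ ‖a + y‖ + (α - 1) := by
      rw [e1]
      refine (norm_add_le _ _).trans (add_le_add le_rfl ?_)
      rw [norm_smul, hy, mul_one, Real.norm_eq_abs, abs_of_nonneg (by linarith)]
    rw [norm_smul, Real.norm_eq_abs, abs_of_pos hα] at h2
    nlinarith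
  · have e0 : z = a + (1 - α) • z := by
      calc z = α • z + (1 - α) • z := by module
        _ = a + (1 - α) • z := by rw [← haz]
    have e1 : z + y = (a + y) + (1 - α) • z := by
      calc z + y = (a + (1 - α) • z) + y := by rw [← e0]
        _ = (a + y) + (1 - α) • z := by abel
    have h2 : ‖z + y‖ ≤ ‖a + y‖ + (1 - α) := by
      rw [e1]
      refine (norm_add_le _ _).trans (add_le_add le_rfl ?_)
      rw [norm_smul, hzn, mul_one, Real.norm_eq_abs, abs_of_nonneg (by linarith)]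
    linarith

/-- In a space with octahedral norm every vector is dominated. -/
lemma dominated_of_oct (hoct : ∀ A : Finset E, (∀ a ∈ A, ‖a‖ = 1) → ∀ ε : ℝ, 0 < ε →
      ∃ y : E, ‖y‖ = 1 ∧ ∀ a ∈ A, 2 - ε ≤ ‖a + y‖) (d : E) : Dominated d := by
  classical
  -- it is enough to dominate vectors of norm at most one
  have key : ∀ d : E, ‖d‖ ≤ 1 → Dominated d := by
    intro d hd
    refine ⟨1, ?_⟩
    intro A F ε hε
    have hch : ∀ S : Finset E, ∃ y : E, ‖y‖ = 1 ∧
        ∀ a ∈ S, ‖a‖ + 1 / 2 - ε / 2 ≤ ‖a + (1 / 2 : ℝ) • y‖ := by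
      intro S
      obtain ⟨y, hy, hyS⟩ := oct_all hoct (S.image (fun a => (2 : ℝ) • a)) hε
      refine ⟨y, hy, ?_⟩
      intro a ha
      have h1 := hyS ((2 : ℝ) • a) (Finset.mem_image.2 ⟨a, ha, rfl⟩)
      have h2 : ‖(2 : ℝ) • a + y‖ = 2 * ‖a + (1 / 2 : ℝ) • y‖ := by
        have : (2 : ℝ) • a + y = (2 : ℝ) • (a + (1 / 2 : ℝ) • y) := by module
        rw [this, norm_smul]; norm_num
      have h3 : ‖(2 : ℝ) • a‖ = 2 * ‖a‖ := by rw [norm_smul]; norm_num
      rw [h2, h3] at h1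
      linarith
    choose nxt hn1 hn2 using hch
    set S : ℕ → Finset E := fun n => Nat.rec A
      (fun _ T => T ∪ A.image (fun a => -(a + (1 / 2 : ℝ) • nxt T))) n with hS
    have hSsucc : ∀ n, S (n + 1) = S n ∪ A.image (fun a => -(a + (1 / 2 : ℝ) • nxt (S n))) :=
      fun n => rfl
    have hSmono : Monotone S := monotone_nat_of_le_succ (fun n => by
      rw [hSsucc]; exact Finset.subset_union_left)
    have hSA : ∀ n, A ⊆ S n := fun n => hSmono (Nat.zero_le n)
    set y : ℕ → E := fun n => nxt (S n) with hy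
    have hyn : ∀ n, ‖y n‖ = 1 := fun n => hn1 _
    have hpair : ∀ i j : ℕ, i < j → ∀ a ∈ A,
        ‖a‖ + 1 - ε ≤ ‖a + ((1 / 2 : ℝ) • y i - (1 / 2 : ℝ) • y j)‖ := by
      intro i j hij a ha
      have h1 := hn2 (S i) a (hSA i ha)
      have h2 := hn2 (S j) (-(a + (1 / 2 : ℝ) • y i)) (hSmono hij (by
        rw [hSsucc]
        exact Finset.mem_union_right _ (Finset.mem_image.2 ⟨a, ha, rfl⟩)))
      have e1 : -(a + (1 / 2 : ℝ) • y i) + (1 / 2 : ℝ) • nxt (S j)
          = -(a + ((1 / 2 : ℝ) • y i - (1 / 2 : ℝ) • y j)) := by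
        rw [hy]; module
      rw [e1, norm_neg, norm_neg] at h2
      have h3 : ‖a‖ + 1 / 2 - ε / 2 ≤ ‖a + (1 / 2 : ℝ) • y i‖ := h1
      linarith
    -- two of the `y n` are close on `F`
    obtain ⟨i, j, hij, hF⟩ : ∃ i j : ℕ, i < j ∧ ∀ f ∈ F, |f (y i) - f (y j)| < ε := by
      set T : ℕ → (F → ℝ) := fun n f => f.1 (y n) with hT
      set R : ℝ := ∑ f ∈ F, ‖f‖ with hR
      have hR0 : 0 ≤ R := Finset.sum_nonneg (fun f _ => norm_nonneg f)
      have hTR : ∀ n, T n ∈ closedBall (0 : F → ℝ) R := by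
        intro n
        rw [mem_closedBall, dist_zero_right, pi_norm_le_iff_of_nonneg hR0]
        intro f
        calc ‖f.1 (y n)‖ ≤ ‖f.1‖ * ‖y n‖ := f.1.le_opNorm _
          _ = ‖f.1‖ := by rw [hyn, mul_one]
          _ ≤ R := Finset.single_le_sum (f := fun f : E →L[ℝ] ℝ => ‖f‖)
              (fun b _ => norm_nonneg b) f.2
      obtain ⟨L, -, φ, hφ, hlim⟩ := (isCompact_closedBall (0 : F → ℝ) R).tendsto_subseq hTR
      obtain ⟨N, hN⟩ := Metric.tendsto_atTop.1 hlim (ε / 2) (by positivity)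
      refine ⟨φ N, φ (N + 1), hφ (Nat.lt_succ_self N), ?_⟩
      intro f hf
      have h1 := hN N le_rfl
      have h2 := hN (N + 1) (Nat.le_succ N)
      have h3 : dist (T (φ N)) (T (φ (N + 1))) < ε := by
        calc dist (T (φ N)) (T (φ (N + 1))) ≤ dist (T (φ N)) L + dist (T (φ (N + 1))) L :=
              dist_triangle_right _ _ _
          _ < ε := by
            simp only [Function.comp] at h1 h2
            linarith
      have h4 := (dist_le_pi_dist (T (φ N)) (T (φ (N + 1))) ⟨f, hf⟩).trans_lt h3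
      rwa [Real.dist_eq] at h4
    refine ⟨(1 / 2 : ℝ) • y i - (1 / 2 : ℝ) • y j, ?_, ?_, ?_⟩
    · refine (norm_sub_le _ _).trans ?_
      rw [norm_smul, norm_smul, hyn, hyn]; norm_num
    · intro f hf
      have h1 := hF f hf
      rw [map_sub, map_smul, map_smul, smul_eq_mul, smul_eq_mul, ← mul_sub, abs_mul]
      have : |(1 / 2 : ℝ)| = 1 / 2 := abs_of_pos (by norm_num)
      rw [this]
      linarith
    · intro a ha
      have h1 := hpair i j hij a ha
      have h2 : ‖a + d‖ ≤ ‖a‖ + 1 := (norm_add_le _ _).trans (by linarith)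
      linarith
  have h1 : d = (‖d‖ + 1) • ((‖d‖ + 1)⁻¹ • d) := by
    rw [smul_smul, mul_inv_cancel₀ (by positivity), one_smul]
  rw [h1]
  refine (key _ ?_).pos_smul (by positivity)
  rw [norm_smul, norm_inv, Real.norm_eq_abs, abs_of_pos (by positivity), inv_mul_le_iff₀
    (by positivity)]
  linarith

end octahedral

/-- A space with octahedral norm has no star-finite covering by closed balls. -/
theorem not_octahedral [CompleteSpace E] [TopologicalSpace.SeparableSpace E]
    (hE : ¬ FiniteDimensional ℝ E) (hr : ∀ i, 0 < r i)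
    (hcov : (⋃ i, closedBall (c i) (r i)) = univ)
    (hstar : ∀ i, {j : ι | (closedBall (c i) (r i) ∩ closedBall (c j) (r j)).Nonempty}.Finite) :
    ¬ ∀ A : Finset E, (∀ a ∈ A, ‖a‖ = 1) → ∀ ε : ℝ, 0 < ε →
      ∃ y : E, ‖y‖ = 1 ∧ ∀ a ∈ A, 2 - ε ≤ ‖a + y‖ := by
  intro hoct
  apply not_dense_dominated hE hr hcov hstar
  have : {d : E | Dominated d} = univ := by
    ext d; simp [dominated_of_oct hoct d]
  rw [this]
  exact dense_univ

end Pool.Agent.Helper31.StarFiniteB
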