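import Pool.Agent.Helper31.StarFiniteB

set_option autoImplicit false
set_option linter.unusedSectionVars false

open Set Metric Filter Topology
open Pool.Agent.Helper50.StarFinite Pool.Agent.Helper31.StarFiniteB

namespace Pool.Agent.Helper31.StarFiniteDual

universe u v

variable {E : Type u} [NormedAddCommGroup E] [NormedSpace ℝ E]
variable {ι : Type v} {c : ι → E} {r : ι → ℝ}

/-- the direction from `p` to the centre of the `i`-th ball -/
noncomputable def dir (c : ι → E) (r : ι → ℝ) (p : E) (i : ι) : E := (1 / r i) • (c i - p)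

/-- points `P n` converging to `x` from outside of the balls through `x`, in fat balls `I n` -/
structure Appr (c : ι → E) (r : ι → ℝ) (x : E) (ρ : ℝ) (P : ℕ → E) (I : ℕ → ι) : Prop where
  lim : Tendsto P atTop (𝓝 x)
  mem : ∀ n, P n ∈ closedBall (c (I n)) (r (I n))
  fat : ∀ n, ρ ≤ r (I n)
  out : ∀ n j, x ∈ closedBall (c j) (r j) → P n ∉ closedBall (c j) (r j)

lemma Appr.comp {x : E} {ρ : ℝ} {P : ℕ → E} {I : ℕ → ι} (h : Appr c r x ρ P I) {φ : ℕ → ℕ}
    (hφ : StrictMono φ) : Appr c r x ρ (P ∘ φ) (I ∘ φ) :=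
  ⟨h.lim.comp hφ.tendsto_atTop, fun n => h.mem (φ n), fun n => h.fat (φ n),
    fun n => h.out (φ n)⟩

lemma Appr.ev_ne {x : E} {ρ : ℝ} {P : ℕ → E} {I : ℕ → ι} (h : Appr c r x ρ P I) (j : ι) :
    ∀ᶠ n in atTop, I n ≠ j := by
  by_cases hx : x ∈ closedBall (c j) (r j)
  · exact Eventually.of_forall fun n hn => h.out n j hx (hn ▸ h.mem n)
  · have : ∀ᶠ n in atTop, P n ∈ (closedBall (c j) (r j))ᶜ :=
      h.lim.eventually (isClosed_closedBall.isOpen_compl.mem_nhds hx)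
    filter_upwards [this] with n hn hI
    exact hn (hI ▸ h.mem n)

lemma Appr.ev_disj
    (hstar : ∀ i, {j : ι | (closedBall (c i) (r i) ∩ closedBall (c j) (r j)).Nonempty}.Finite)
    {x : E} {ρ : ℝ} {P : ℕ → E} {I : ℕ → ι} (h : Appr c r x ρ P I) (j : ι) :
    ∀ᶠ n in atTop, Disjoint (closedBall (c (I n)) (r (I n))) (closedBall (c j) (r j)) := by
  have : ∀ᶠ n in atTop, ∀ k ∈ {k : ι | (closedBall (c j) (r j) ∩
      closedBall (c k) (r k)).Nonempty}, I n ≠ k :=
    (hstar j).eventually_all.2 fun k _ => h.ev_ne k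
  filter_upwards [this] with n hn
  rw [Set.disjoint_iff_inter_eq_empty, ← Set.not_nonempty_iff_eq_empty]
  intro hne
  exact hn (I n) (by rw [inter_comm] at hne; exact hne) rfl

lemma norm_dir_le (hr : ∀ i, 0 < r i) {p : E} {i : ι} (hp : p ∈ closedBall (c i) (r i)) :
    ‖dir c r p i‖ ≤ 1 :=
  (subball (hr i) le_rfl (hr i).le hp).2

lemma abs_app_le {f : E →L[ℝ] ℝ} (hf : ‖f‖ ≤ 1) (v : E) : |f v| ≤ ‖v‖ := by
  calc |f v| = ‖f v‖ := rfl
    _ ≤ ‖f‖ * ‖v‖ := f.le_opNorm v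
    _ ≤ 1 * ‖v‖ := by gcongr
    _ = ‖v‖ := one_mul _

lemma app_le {f : E →L[ℝ] ℝ} (hf : ‖f‖ ≤ 1) (v : E) : f v ≤ ‖v‖ :=
  (le_abs_self _).trans (abs_app_le hf v)

lemma neg_le_app {f : E →L[ℝ] ℝ} (hf : ‖f‖ ≤ 1) (v : E) : -‖v‖ ≤ f v :=
  (neg_le_neg (abs_app_le hf v)).trans (neg_abs_le _)

/-- a functional which sees a ball at positive distance -/
lemma kill_data (hr : ∀ i, 0 < r i) {N : Set (E →L[ℝ] ℝ)} (hN1 : ∀ f ∈ N, ‖f‖ ≤ 1)
    (hN2 : ∀ (v : E) (R : ℝ), R < ‖v‖ → ∃ f ∈ N, R < f v)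
    {i j : ι} {p q : E} {ρ : ℝ} (hρ : 0 < ρ) (hp : p ∈ closedBall (c i) (r i))
    (hq : q ∈ closedBall (c j) (r j)) (hρj : ρ ≤ r j)
    (hd : Disjoint (closedBall (c j) (r j)) (closedBall (c i) (r i))) :
    ∃ f ∈ N, r i - ‖p - q‖ < f (c i - p) ∧ f (dir c r q j) < -1 + ‖p - q‖ / ρ := by
  obtain ⟨hsub, hn1⟩ := subball (hr j) hρ.le hρj hq
  set e := dir c r q j with he
  have hsub' : closedBall (q + ρ • e) ρ ⊆ closedBall (c j) (r j) := hsub
  have hn1 : ‖e‖ ≤ 1 := hn1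
  have hdd : Disjoint (closedBall (c i) (r i)) (closedBall (q + ρ • e) ρ) :=
    (hd.mono_left hsub').symm
  rw [disjoint_closedBall_closedBall_iff (hr i).le hρ.le, dist_eq_norm] at hdd
  obtain ⟨f, hf, hf2⟩ := hN2 _ _ hdd
  have hf1 := hN1 f hf
  have e1 : c i - (q + ρ • e) = (c i - p) + (p - q) - ρ • e := by abel
  rw [e1, map_sub, map_add, map_smul, smul_eq_mul] at hf2
  have h1 := app_le hf1 (p - q)
  have h2 := neg_le_app hf1 e
  have h3 : f (c i - p) ≤ r i := by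
    refine (app_le hf1 _).trans ?_
    rw [mem_closedBall, dist_eq_norm, norm_sub_rev] at hp
    exact hp
  refine ⟨f, hf, ?_, ?_⟩
  · nlinarith
  · have h4 : ρ * f e < -ρ + ‖p - q‖ := by linarith
    have h5 : ρ * (-1 + ‖p - q‖ / ρ) = -ρ + ‖p - q‖ := by field_simp
    rw [← h5] at h4
    exact lt_of_mul_lt_mul_left h4 hρ.le

/-- two far members of an approaching sequence have directions at distance almost two -/
lemma dir_far (hr : ∀ i, 0 < r i) {i j : ι} {p q : E} {ρ : ℝ} (hρ : 0 < ρ)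
    (hp : p ∈ closedBall (c i) (r i)) (hρi : ρ ≤ r i)
    (hq : q ∈ closedBall (c j) (r j)) (hρj : ρ ≤ r j)
    (hd : Disjoint (closedBall (c i) (r i)) (closedBall (c j) (r j))) :
    2 - ‖p - q‖ / ρ < ‖dir c r p i - dir c r q j‖ := by
  obtain ⟨hsub1, -⟩ := subball (hr i) hρ.le hρi hp
  obtain ⟨hsub2, -⟩ := subball (hr j) hρ.le hρj hq
  have h1 : Disjoint (closedBall (p + ρ • dir c r p i) ρ) (closedBall (q + ρ • dir c r q j) ρ) :=
    (hd.mono_left hsub1).mono_right hsub2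
  rw [disjoint_closedBall_closedBall_iff hρ.le hρ.le, dist_eq_norm] at h1
  have e1 : p + ρ • dir c r p i - (q + ρ • dir c r q j)
      = (p - q) + ρ • (dir c r p i - dir c r q j) := by
    rw [smul_sub]; abel
  rw [e1] at h1
  have h2 := norm_add_le (p - q) (ρ • (dir c r p i - dir c r q j))
  rw [norm_smul, Real.norm_eq_abs, abs_of_pos hρ] at h2
  have h3 : ρ * (2 - ‖p - q‖ / ρ) = ρ + ρ - ‖p - q‖ := by field_simp; ring
  have h4 : ρ * (2 - ‖p - q‖ / ρ) < ρ * ‖dir c r p i - dir c r q j‖ := by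
    rw [h3]; linarith
  exact lt_of_mul_lt_mul_left h4 hρ.le

/-- bounded sequences of reals converge along ultrafilters -/
lemma ultra_real (𝒰 : Ultrafilter ℕ) {a : ℕ → ℝ} {M : ℝ} (ha : ∀ n, |a n| ≤ M) :
    ∃ L : ℝ, Tendsto a 𝒰 (𝓝 L) := by
  have h1 : IsCompact (Icc (-M) M) := isCompact_Icc
  obtain ⟨L, -, hL⟩ := h1.ultrafilter_le_nhds (𝒰.map a) (by
    rw [Ultrafilter.coe_map, le_principal_iff, mem_map]
    exact Filter.univ_mem' fun n => abs_le.1 (ha n))
  exact ⟨L, hL⟩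

/-- weak star limits along ultrafilters -/
lemma ultra_dual (𝒰 : Ultrafilter ℕ) {f : ℕ → (E →L[ℝ] ℝ)} (hf : ∀ n, ‖f n‖ ≤ 1) :
    ∃ ψ : E →L[ℝ] ℝ, ∀ w : E, Tendsto (fun n => f n w) 𝒰 (𝓝 (ψ w)) := by
  have h1 : IsCompact (WeakDual.toStrongDual ⁻¹' closedBall (0 : E →L[ℝ] ℝ) 1) :=
    WeakDual.isCompact_closedBall _ _
  set g : ℕ → WeakDual ℝ E := fun n => StrongDual.toWeakDual (f n) with hg
  obtain ⟨ψ, -, hψ⟩ := h1.ultrafilter_le_nhds (𝒰.map g) (by
    rw [Ultrafilter.coe_map, le_principal_iff, mem_map]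
    refine Filter.univ_mem' fun n => ?_
    show f n ∈ closedBall (0 : E →L[ℝ] ℝ) 1
    rw [mem_closedBall, dist_zero_right]
    exact hf n)
  refine ⟨WeakDual.toStrongDual ψ, fun w => ?_⟩
  have h2 : Tendsto g 𝒰 (𝓝 ψ) := hψ
  exact ((WeakDual.eval_continuous w).tendsto ψ).comp h2

/-- differences of a bounded sequence are weakly null along `(l, k)`, first `k`, then `l` -/
lemma diff_null (𝒰 : Ultrafilter ℕ) {e : ℕ → E} (he : ∀ n, ‖e n‖ ≤ 1) (g : E →L[ℝ] ℝ) :
    Tendsto (fun q : ℕ × ℕ => g (e q.1 - e q.2)) ((𝒰 : Filter ℕ).curry 𝒰) (𝓝 0) := by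
  obtain ⟨L, hL⟩ := ultra_real 𝒰 (a := fun n => g (e n)) (M := ‖g‖) (fun n => by
    calc |g (e n)| = ‖g (e n)‖ := rfl
      _ ≤ ‖g‖ * ‖e n‖ := g.le_opNorm _
      _ ≤ ‖g‖ * 1 := mul_le_mul_of_nonneg_left (he n) (norm_nonneg _)
      _ = ‖g‖ := mul_one _)
  have h1 : Tendsto (fun q : ℕ × ℕ => g (e q.1)) ((𝒰 : Filter ℕ).curry 𝒰) (𝓝 L) :=
    (hL.comp tendsto_fst).mono_left curry_le_prod
  have h2 : Tendsto (fun q : ℕ × ℕ => g (e q.2)) ((𝒰 : Filter ℕ).curry 𝒰) (𝓝 L) :=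
    (hL.comp tendsto_snd).mono_left curry_le_prod
  have h3 := h1.sub h2
  rw [sub_self] at h3
  refine h3.congr fun q => ?_
  rw [map_sub]

/-- points near `x` outside of all balls through `x` -/
lemma exists_out (hcov : (⋃ i, closedBall (c i) (r i)) = univ)
    (hstar : ∀ i, {j : ι | (closedBall (c i) (r i) ∩ closedBall (c j) (r j)).Nonempty}.Finite)
    {x : E} {ε : ℝ} (hs : Sing c r x)
    (h2 : ∀ i, (closedBall (c i) (r i) ∩ ball x ε).Nonempty → x ∈ closedBall (c i) (r i) ∨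
        ∀ j, x ∈ closedBall (c j) (r j) →
          Disjoint (closedBall (c i) (r i)) (closedBall (c j) (r j)))
    {t : ℝ} (ht : 0 < t) (htε : t ≤ ε) :
    ∃ p : E, ‖p - x‖ < t ∧ ∀ j, x ∈ closedBall (c j) (r j) → p ∉ closedBall (c j) (r j) := by
  set J := {j : ι | x ∈ closedBall (c j) (r j)} with hJ
  have hJf : J.Finite := ptFinite hcov hstar x
  obtain ⟨k, hk, hkJ⟩ : ∃ k ∈ {j : ι | (closedBall (c j) (r j) ∩ ball x t).Nonempty},
      k ∉ J := (hs t ht).exists_notMem_finite hJf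
  obtain ⟨p, hpk, hpx⟩ := hk
  refine ⟨p, by rwa [mem_ball, dist_eq_norm] at hpx, ?_⟩
  intro j hj hp
  rcases h2 k ⟨p, hpk, ball_subset_ball htε hpx⟩ with h | h
  · exact hkJ h
  · exact Set.disjoint_left.1 (h j hj) hpk hp

lemma claimB (hr : ∀ i, 0 < r i)
    (hcov : (⋃ i, closedBall (c i) (r i)) = univ)
    (hstar : ∀ i, {j : ι | (closedBall (c i) (r i) ∩ closedBall (c j) (r j)).Nonempty}.Finite)
    {N : Set (E →L[ℝ] ℝ)} (hN1 : ∀ f ∈ N, ‖f‖ ≤ 1)
    (hN2 : ∀ (v : E) (R : ℝ), R < ‖v‖ → ∃ f ∈ N, R < f v)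
    {x : E} {ε : ℝ} (hε : 0 < ε) (hs : Sing c r x)
    (h1 : ∃ i, x ∈ closedBall (c i) (r i) ∧
      ∀ z ∈ ball x ε, Sing c r z → z ∈ closedBall (c i) (r i))
    (h2 : ∀ i, (closedBall (c i) (r i) ∩ ball x ε).Nonempty → x ∈ closedBall (c i) (r i) ∨
        ∀ j, x ∈ closedBall (c j) (r j) →
          Disjoint (closedBall (c i) (r i)) (closedBall (c j) (r j)))
    {P : ℕ → ℕ → E} {I : ℕ → ℕ → ι} {h : ℕ → E}
    (hA : ∀ s, Appr c r x (ε / 64) (P s) (I s))
    (hh : ∀ s, ∀ f ∈ N, Tendsto (fun n => f (dir c r (P s n) (I s n))) atTop (𝓝 (f (h s))))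
    (S : ℕ) {κ Δ : ℝ} (hκ : 0 < κ) (hΔ : 0 < Δ) :
    ∃ p i, (∀ j, x ∈ closedBall (c j) (r j) → p ∉ closedBall (c j) (r j)) ∧ ‖p - x‖ < Δ ∧
      p ∈ closedBall (c i) (r i) ∧ ε / 64 ≤ r i ∧ ∀ s ≤ S, 2 - κ ≤ ‖dir c r p i - h s‖ := by
  classical
  by_contra hcon
  push Not at hcon
  set ρ := ε / 64 with hρdef
  have hρ : 0 < ρ := by positivity
  set lam := ε / (32 * (S + 1)) with hlam
  have hlam0 : 0 < lam := by positivity
  set D := lam * κ / (8 * (1 + 2 * lam / ρ)) with hD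
  have hD0 : 0 < D := by positivity
  set t := min (min Δ (ε / 4)) D with ht
  have ht0 : 0 < t := lt_min (lt_min hΔ (by positivity)) hD0
  have htΔ : t ≤ Δ := (min_le_left _ _).trans (min_le_left _ _)
  have htε : t ≤ ε / 4 := (min_le_left _ _).trans (min_le_right _ _)
  have htD : t ≤ D := min_le_right _ _
  obtain ⟨p, hpx, hpC⟩ := exists_out hcov hstar hs h2 ht0 (by linarith : t ≤ ε)
  set J := {i : ι | p ∈ closedBall (c i) (r i) ∧ ρ ≤ r i} with hJ
  have hJf : J.Finite := (ptFinite hcov hstar p).subset (fun i hi => hi.1)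
  have hσ : ∀ i ∈ J, ∃ s ≤ S, ‖dir c r p i - h s‖ < 2 - κ := fun i hi =>
    hcon p i hpC (hpx.trans_le htΔ) hi.1 hi.2
  choose! σ hσ1 hσ2 using hσ
  set 𝒰 := hyperfilter ℕ with h𝒰
  have h𝒰le : (𝒰 : Filter ℕ) ≤ atTop := Nat.hyperfilter_le_atTop
  -- kill data
  set K : ι → ℕ → (E →L[ℝ] ℝ) → Prop := fun i l f => f ∈ N ∧
      r i - ‖p - P (σ i) l‖ < f (c i - p) ∧
      f (dir c r (P (σ i) l) (I (σ i) l)) < -1 + ‖p - P (σ i) l‖ / ρ with hK
  have hkd : ∀ i ∈ J, ∀ᶠ l in atTop, ∃ f, K i l f := by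
    intro i hi
    filter_upwards [(hA (σ i)).ev_disj hstar i] with l hl
    obtain ⟨f, hf1, hf2, hf3⟩ :=
      kill_data hr hN1 hN2 hρ hi.1 ((hA _).mem l) ((hA _).fat l) hl
    exact ⟨f, hf1, hf2, hf3⟩
  have hy : ∀ i l, ∃ f : E →L[ℝ] ℝ, ‖f‖ ≤ 1 ∧ ((∃ f, K i l f) → K i l f) := by
    intro i l
    by_cases hc : ∃ f, K i l f
    · obtain ⟨f, hf⟩ := hc
      exact ⟨f, hN1 f hf.1, fun _ => hf⟩
    · exact ⟨0, by simp, fun h => absurd h hc⟩
  choose y hy1 hy2 using hy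
  have hψ : ∀ i, ∃ ψ : E →L[ℝ] ℝ, ∀ w : E, Tendsto (fun l => y i l w) 𝒰 (𝓝 (ψ w)) :=
    fun i => ultra_dual 𝒰 (hy1 i)
  choose ψ hψ using hψ
  have hpε : p ∈ ball x ε := by rw [mem_ball, dist_eq_norm]; linarith
  obtain ⟨i0, hi0, hloc⟩ := h1
  have hdisj : ∀ j, p ∈ closedBall (c j) (r j) → ∀ l, x ∈ closedBall (c l) (r l) →
      Disjoint (closedBall (c j) (r j)) (closedBall (c l) (r l)) := by
    intro j hj
    rcases h2 j ⟨p, hj, hpε⟩ with h | h
    · exact absurd hj (hpC j h)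
    · exact h
  obtain ⟨Γ0, δ0, hδ0, hflat⟩ := flatNhd hcov hstar (convex_ball x ε) hpε (by
    intro z hz hsing j hj hzj
    exact (Set.disjoint_left.1 (hdisj j hj i0 hi0)) hzj (hloc z hz hsing))
  set Γ : Finset (E →L[ℝ] ℝ) := Γ0 ∪ hJf.toFinset.image ψ with hΓ
  have hdir1 : ∀ s n, ‖dir c r (P s n) (I s n)‖ ≤ 1 := fun s n => norm_dir_le hr ((hA s).mem n)
  have St : ∀ m : ℕ, m ≤ S + 1 → ∀ θ : ℝ, 0 < θ → ∃ w : E, ‖w‖ ≤ ε / 8 + m * (2 * lam) ∧
      (∀ g ∈ Γ, |g w| < θ) ∧ (∃ f ∈ N, ε / 16 < f w) ∧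
      ∀ i ∈ J, σ i < m → ∃ f ∈ N, r i < f (c i - p - w) := by
    intro m
    induction m with
    | zero =>
      intro _ θ hθ
      set e : ℕ → E := fun n => dir c r (P 0 n) (I 0 n) with he
      have e1 : ∀ᶠ q in (𝒰 : Filter ℕ).curry 𝒰, ∀ g ∈ Γ, |g ((ε / 16) • (e q.1 - e q.2))| < θ := by
        rw [Finset.eventually_all]
        intro g _
        have h3 := (diff_null 𝒰 (hdir1 0) g).const_mul (ε / 16)
        rw [mul_zero] at h3
        have h4 := h3.abs
        rw [abs_zero] at h4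
        filter_upwards [h4.eventually (gt_mem_nhds hθ)] with q hq
        rw [map_smul, smul_eq_mul]
        exact hq
      have hnear : ∀ᶠ n in (𝒰 : Filter ℕ), ‖P 0 n - x‖ < ρ / 2 := by
        apply h𝒰le
        have h3 := (tendsto_iff_norm_sub_tendsto_zero.1 (hA 0).lim)
        exact h3.eventually (gt_mem_nhds (by positivity))
      have e2 : ∀ᶠ q in (𝒰 : Filter ℕ).curry 𝒰, 1 < ‖e q.1 - e q.2‖ := by
        rw [eventually_curry_iff]
        filter_upwards [hnear] with l hl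
        filter_upwards [hnear, h𝒰le ((hA 0).ev_disj hstar (I 0 l))] with k hk hd
        have h3 := dir_far hr hρ ((hA 0).mem l) ((hA 0).fat l) ((hA 0).mem k) ((hA 0).fat k) hd.symm
        have h4 : ‖P 0 l - P 0 k‖ < ρ := by
          calc ‖P 0 l - P 0 k‖ = ‖(P 0 l - x) - (P 0 k - x)‖ := by congr 1; abel
            _ ≤ ‖P 0 l - x‖ + ‖P 0 k - x‖ := norm_sub_le _ _
            _ < ρ := by linarith
        have h5 : ‖P 0 l - P 0 k‖ / ρ < 1 := (div_lt_one hρ).2 h4
        show 1 < ‖dir c r (P 0 l) (I 0 l) - dir c r (P 0 k) (I 0 k)‖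
        linarith
      obtain ⟨l, hl⟩ := ((eventually_curry_iff.1 (e1.and e2))).exists
      obtain ⟨k, hk1, hk2⟩ := hl.exists
      obtain ⟨f, hf, hf2⟩ := hN2 _ _ hk2
      refine ⟨(ε / 16) • (e l - e k), ?_, hk1, ⟨f, hf, ?_⟩, ?_⟩
      · rw [norm_smul, Real.norm_eq_abs, abs_of_pos (by positivity)]
        have h3 : ‖e l - e k‖ ≤ 2 := by
          calc ‖e l - e k‖ ≤ ‖e l‖ + ‖e k‖ := norm_sub_le _ _
            _ ≤ 2 := by linarith [hdir1 0 l, hdir1 0 k]
        have h4 : ε / 16 * ‖e l - e k‖ ≤ ε / 16 * 2 := mul_le_mul_of_nonneg_left h3 (by positivity)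
        simp only [Nat.cast_zero, zero_mul, add_zero]
        linarith
      · rw [map_smul, smul_eq_mul]
        have : ε / 16 * 1 < ε / 16 * f (e l - e k) := mul_lt_mul_of_pos_left hf2 (by positivity)
        linarith
      · intro i _ hi
        exact absurd hi (Nat.not_lt_zero _)
    | succ m ih =>
      intro hm θ hθ
      set μ := lam * κ / 8 with hμ
      have hμ0 : 0 < μ := by positivity
      obtain ⟨w, hw1, hw2, ⟨f0, hf0, hf0w⟩, hw3⟩ := ih (by omega) (min θ μ) (lt_min hθ hμ0)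
      set e : ℕ → E := fun n => dir c r (P m n) (I m n) with he
      have hlim : ∀ (g : E →L[ℝ] ℝ) (v : E), Tendsto (fun q : ℕ × ℕ =>
          g (v + lam • (e q.1 - e q.2))) ((𝒰 : Filter ℕ).curry 𝒰) (𝓝 (g v)) := by
        intro g v
        have h3 := ((diff_null 𝒰 (hdir1 m) g).const_mul lam).const_add (g v)
        rw [mul_zero, add_zero] at h3
        refine h3.congr fun q => ?_
        rw [map_add, map_smul, smul_eq_mul]
      have e1 : ∀ᶠ q in (𝒰 : Filter ℕ).curry 𝒰, ∀ g ∈ Γ, |g (w + lam • (e q.1 - e q.2))| < θ := by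
        rw [Finset.eventually_all]
        intro g hg
        have h3 := (hlim g w).abs
        exact h3.eventually (gt_mem_nhds ((hw2 g hg).trans_le (min_le_left _ _)))
      have e2 : ∀ᶠ q in (𝒰 : Filter ℕ).curry 𝒰, ε / 16 < f0 (w + lam • (e q.1 - e q.2)) :=
        (hlim f0 w).eventually (lt_mem_nhds hf0w)
      have e3 : ∀ᶠ q in (𝒰 : Filter ℕ).curry 𝒰, ∀ i ∈ J, σ i < m + 1 →
          ∃ f ∈ N, r i < f (c i - p - (w + lam • (e q.1 - e q.2))) := by
        rw [hJf.eventually_all]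
        intro i hi
        rcases lt_trichotomy (σ i) m with hlt | heq | hgt
        · obtain ⟨f, hf, hf2⟩ := hw3 i hi hlt
          have h3 : Tendsto (fun q : ℕ × ℕ => f (c i - p) - f (w + lam • (e q.1 - e q.2)))
              ((𝒰 : Filter ℕ).curry 𝒰) (𝓝 (f (c i - p) - f w)) := (hlim f w).const_sub _
          rw [map_sub f (c i - p) w] at hf2
          filter_upwards [h3.eventually (lt_mem_nhds hf2)] with q hq _
          exact ⟨f, hf, by rw [map_sub f (c i - p)]; exact hq⟩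
        · rw [eventually_curry_iff]
          have hgw : |ψ i w| < μ :=
            (hw2 (ψ i) (Finset.mem_union_right _ (Finset.mem_image.2
              ⟨i, hJf.mem_toFinset.2 hi, rfl⟩))).trans_le (min_le_right _ _)
          have a1 : ∀ᶠ l in (𝒰 : Filter ℕ), y i l w < μ :=
            (hψ i w).eventually (gt_mem_nhds ((le_abs_self _).trans_lt hgw))
          have a2 : ∀ᶠ l in (𝒰 : Filter ℕ), ‖p - P (σ i) l‖ < 2 * t := by
            apply h𝒰le
            have h3 : Tendsto (fun l => ‖p - P (σ i) l‖) atTop (𝓝 ‖p - x‖) :=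
              ((hA (σ i)).lim.const_sub p).norm
            exact h3.eventually (gt_mem_nhds (by linarith))
          have a3 : ∀ᶠ l in (𝒰 : Filter ℕ), ∃ f, K i l f := h𝒰le (hkd i hi)
          filter_upwards [a1, a2, a3] with l hl1 hl2 hl3
          obtain ⟨hl4, hl5, hl6⟩ := hy2 i l hl3
          have a4 : ∀ᶠ k in (𝒰 : Filter ℕ), y i l (h m) - κ / 4 < y i l (e k) := by
            apply h𝒰le
            exact (hh m _ hl4).eventually (lt_mem_nhds (by linarith))
          filter_upwards [a4] with k hk _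
          refine ⟨y i l, hl4, ?_⟩
          set f := y i l with hf
          have hfn := hN1 f hl4
          set d := ‖p - P (σ i) l‖ with hd
          have hd0 : 0 ≤ d := norm_nonneg _
          have hri := hr i
          have hρi : ρ ≤ r i := hi.2
          -- lower bound for `f (h m)`
          have b1 : f (dir c r p i) - f (h m) < 2 - κ := by
            rw [← map_sub]
            refine (app_le hfn _).trans_lt ?_
            rw [← heq]
            exact hσ2 i hi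
          have b2 : f (dir c r p i) = f (c i - p) / r i := by
            rw [dir, map_smul, smul_eq_mul]; ring
          have b3 : 1 - d / ρ < f (c i - p) / r i := by
            rw [lt_div_iff₀ hri]
            have h6 : d ≤ d / ρ * r i := by
              calc d = d / ρ * ρ := by field_simp
                _ ≤ d / ρ * r i := by gcongr
            nlinarith
          have b4 : -1 + 3 / 4 * κ - d / ρ < f (e k) := by
            rw [b2] at b1
            linarith
          have b5 : f (e l) < -1 + d / ρ := by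
            rw [he, ← heq]
            exact hl6
          have b6 : f (c i - p - (w + lam • (e l - e k)))
              = f (c i - p) - f w - lam * (f (e l) - f (e k)) := by
            rw [map_sub f (c i - p), map_add, map_smul, map_sub f (e l), smul_eq_mul]; ring
          show r i < f (c i - p - (w + lam • (e l - e k)))
          rw [b6]
          have b7 : lam * (f (e l) - f (e k)) ≤ lam * (2 * (d / ρ) - 3 / 4 * κ) :=
            mul_le_mul_of_nonneg_left (by linarith) hlam0.le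
          have b8 : d * (1 + 2 * lam / ρ) ≤ lam * κ / 4 := by
            have h7 : d ≤ 2 * D := by linarith
            have h8 : (0 : ℝ) < 1 + 2 * lam / ρ := by positivity
            calc d * (1 + 2 * lam / ρ) ≤ 2 * D * (1 + 2 * lam / ρ) := by gcongr
              _ = lam * κ / 4 := by rw [hD]; field_simp; ring
          have b9 : lam * (2 * (d / ρ) - 3 / 4 * κ) = d * (2 * lam / ρ) - 3 / 4 * (lam * κ) := by
            ring
          rw [b9] at b7
          have b10 : 0 < lam * κ := by positivity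
          nlinarith
        · exact Eventually.of_forall fun q hq => absurd hq (by omega)
      obtain ⟨l, hl⟩ := ((eventually_curry_iff.1 ((e1.and e2).and e3))).exists
      obtain ⟨k, ⟨hk1, hk2⟩, hk3⟩ := hl.exists
      refine ⟨w + lam • (e l - e k), ?_, hk1, ⟨f0, hf0, hk2⟩, hk3⟩
      have h3 : ‖e l - e k‖ ≤ 2 := by
        calc ‖e l - e k‖ ≤ ‖e l‖ + ‖e k‖ := norm_sub_le _ _
          _ ≤ 2 := by linarith [hdir1 m l, hdir1 m k]
      calc ‖w + lam • (e l - e k)‖ ≤ ‖w‖ + ‖lam • (e l - e k)‖ := norm_add_le _ _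
        _ = ‖w‖ + lam * ‖e l - e k‖ := by
            rw [norm_smul, Real.norm_eq_abs, abs_of_pos hlam0]
        _ ≤ (ε / 8 + m * (2 * lam)) + lam * 2 := by gcongr
        _ = ε / 8 + ((m + 1 : ℕ) : ℝ) * (2 * lam) := by push_cast; ring
  obtain ⟨w, hw1, hw2, ⟨f0, hf0, hf0w⟩, hw3⟩ := St (S + 1) le_rfl δ0 hδ0
  have hw1' : ‖w‖ ≤ 3 * ε / 16 := by
    refine hw1.trans (le_of_eq ?_)
    rw [hlam]
    push_cast
    field_simp
    ring
  obtain ⟨j, hj1, hj2⟩ := hflat (p + w) (by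
    rw [mem_ball, dist_eq_norm]
    calc ‖p + w - x‖ = ‖(p - x) + w‖ := by congr 1; abel
      _ ≤ ‖p - x‖ + ‖w‖ := norm_add_le _ _
      _ < ε := by linarith) (by
    intro g hg
    rw [add_sub_cancel_left]
    exact hw2 g (Finset.mem_union_left _ hg))
  rw [mem_closedBall, dist_eq_norm] at hj2
  by_cases hjρ : ρ ≤ r j
  · have hjJ : j ∈ J := ⟨hj1, hjρ⟩
    obtain ⟨f, hf, hf2⟩ := hw3 j hjJ (by have := hσ1 j hjJ; omega)
    have h3 := app_le (hN1 f hf) (c j - p - w)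
    have h4 : ‖c j - p - w‖ = ‖p + w - c j‖ := by rw [← norm_neg]; congr 1; abel
    rw [h4] at h3
    linarith
  · push Not at hjρ
    rw [mem_closedBall, dist_eq_norm] at hj1
    have h3 : ‖w‖ ≤ r j + r j := by
      calc ‖w‖ = ‖(p + w - c j) - (p - c j)‖ := by congr 1; abel
        _ ≤ ‖p + w - c j‖ + ‖p - c j‖ := norm_sub_le _ _
        _ ≤ r j + r j := add_le_add hj2 hj1
    have h4 := app_le (hN1 f0 hf0) w
    linarith

end Pool.Agent.Helper31.StarFiniteDual
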