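import Pool.Agent.Helper31.StarFiniteDual

set_option autoImplicit false
set_option linter.unusedSectionVars false

open Set Metric Filter Topology
open Pool.Agent.Helper50.StarFinite Pool.Agent.Helper31.StarFiniteB

namespace Pool.Agent.Helper31.StarFiniteDual

universe u v

variable {E : Type u} [NormedAddCommGroup E] [NormedSpace ℝ E]
variable {ι : Type v} {c : ι → E} {r : ι → ℝ}

lemma tendsto_inv_succ : Tendsto (fun n : ℕ => 1 / ((n : ℝ) + 1)) atTop (𝓝 0) :=
  tendsto_one_div_add_atTop_nhds_zero_nat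

/-- there are approaching sequences at a good centre -/
lemma exists_appr (hE : ¬ FiniteDimensional ℝ E)
    (hcov : (⋃ i, closedBall (c i) (r i)) = univ)
    (hstar : ∀ i, {j : ι | (closedBall (c i) (r i) ∩ closedBall (c j) (r j)).Nonempty}.Finite)
    {x : E} {ε : ℝ} (hε : 0 < ε) (hs : Sing c r x)
    (h1 : ∃ i, x ∈ closedBall (c i) (r i) ∧
      ∀ z ∈ ball x ε, Sing c r z → z ∈ closedBall (c i) (r i))
    (h2 : ∀ i, (closedBall (c i) (r i) ∩ ball x ε).Nonempty → x ∈ closedBall (c i) (r i) ∨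
        ∀ j, x ∈ closedBall (c j) (r j) →
          Disjoint (closedBall (c i) (r i)) (closedBall (c j) (r j))) :
    ∃ P I, Appr c r x (ε / 64) P I := by
  have key : ∀ n : ℕ, ∃ p i, ‖p - x‖ < 1 / ((n : ℝ) + 1) ∧ p ∈ closedBall (c i) (r i) ∧
      ε / 64 ≤ r i ∧ ∀ j, x ∈ closedBall (c j) (r j) → p ∉ closedBall (c j) (r j) := by
    intro n
    have ht : 0 < min (1 / ((n : ℝ) + 1)) (ε / 2) := lt_min (by positivity) (by positivity)
    obtain ⟨p, hp, hpC⟩ := exists_out hcov hstar hs h2 ht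
      ((min_le_right _ _).trans (by linarith))
    obtain ⟨i, hi, hri, -⟩ := fat hE hcov hstar hε h1 h2 (p := p)
      (by rw [mem_ball, dist_eq_norm]; exact hp.trans_le (min_le_right _ _)) hpC
    exact ⟨p, i, hp.trans_le (min_le_left _ _), hi, by linarith, hpC⟩
  choose P I hP1 hP2 hP3 hP4 using key
  refine ⟨P, I, ⟨?_, hP2, hP3, hP4⟩⟩
  rw [tendsto_iff_norm_sub_tendsto_zero]
  exact squeeze_zero (fun n => norm_nonneg _) (fun n => (hP1 n).le) tendsto_inv_succ

/-- The abstract form of the theorem. -/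
theorem abstract_main [CompleteSpace E] [TopologicalSpace.SeparableSpace E]
    (hE : ¬ FiniteDimensional ℝ E) (hr : ∀ i, 0 < r i)
    (hcov : (⋃ i, closedBall (c i) (r i)) = univ)
    (hstar : ∀ i, {j : ι | (closedBall (c i) (r i) ∩ closedBall (c j) (r j)).Nonempty}.Finite)
    {N : Set (E →L[ℝ] ℝ)} (hN1 : ∀ f ∈ N, ‖f‖ ≤ 1)
    (hN2 : ∀ (v : E) (R : ℝ), R < ‖v‖ → ∃ f ∈ N, R < f v)
    {Conv : (ℕ → E) → E → Prop}
    (hC : ∀ e h, Conv e h → ∀ f ∈ N, Tendsto (fun n => f (e n)) atTop (𝓝 (f h)))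
    (hN3 : ∀ e : ℕ → E, (∀ n, ‖e n‖ ≤ 1) → ∃ φ : ℕ → ℕ, StrictMono φ ∧ ∃ h, Conv (e ∘ φ) h) :
    ∃ (e : ℕ → E) (h : E), (∀ n, ‖e n‖ ≤ 1) ∧ ‖h‖ = 1 ∧ Conv e h ∧
      Tendsto (fun n => ‖e n - h‖) atTop (𝓝 2) := by
  classical
  obtain ⟨x, ε, hε, hs, h1, h2⟩ := exists_good hE hr hcov hstar
  set H : Set E := {h | ∃ P I, Appr c r x (ε / 64) P I ∧
    ∀ f ∈ N, Tendsto (fun n => f (dir c r (P n) (I n))) atTop (𝓝 (f h))} with hH
  have hlimit : ∀ P I, Appr c r x (ε / 64) P I → ∃ φ : ℕ → ℕ, StrictMono φ ∧ ∃ h ∈ H,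
      Conv (fun n => dir c r (P (φ n)) (I (φ n))) h := by
    intro P I hPI
    obtain ⟨φ, hφ, h, hh⟩ := hN3 (fun n => dir c r (P n) (I n))
      (fun n => norm_dir_le hr (hPI.mem n))
    refine ⟨φ, hφ, h, ⟨P ∘ φ, I ∘ φ, hPI.comp hφ, fun f hf => hC _ _ hh f hf⟩, hh⟩
  obtain ⟨P0, I0, hPI0⟩ := exists_appr hE hcov hstar hε hs h1 h2
  obtain ⟨-, -, h0, hh0, -⟩ := hlimit P0 I0 hPI0
  haveI : Nonempty H := ⟨⟨h0, hh0⟩⟩
  haveI : SecondCountableTopology E := UniformSpace.secondCountable_of_separable E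
  have hd : DenseRange (TopologicalSpace.denseSeq H) := TopologicalSpace.denseRange_denseSeq H
  set d : ℕ → H := TopologicalSpace.denseSeq H with hddef
  have hdH : ∀ s, ∃ P I, Appr c r x (ε / 64) P I ∧
    ∀ f ∈ N, Tendsto (fun n => f (dir c r (P n) (I n))) atTop (𝓝 (f (d s : E))) := fun s => (d s).2
  choose P I hA hh using hdH
  have hB : ∀ n : ℕ, ∃ p i, (∀ j, x ∈ closedBall (c j) (r j) → p ∉ closedBall (c j) (r j)) ∧
      ‖p - x‖ < 1 / ((n : ℝ) + 1) ∧ p ∈ closedBall (c i) (r i) ∧ ε / 64 ≤ r i ∧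
      ∀ s ≤ n, 2 - 1 / ((n : ℝ) + 1) ≤ ‖dir c r p i - (d s : E)‖ := fun n =>
    claimB hr hcov hstar hN1 hN2 hε hs h1 h2 hA hh n (by positivity) (by positivity)
  choose p i hp1 hp2 hp3 hp4 hp5 using hB
  have hApp : Appr c r x (ε / 64) p i := by
    refine ⟨?_, hp3, hp4, fun n => hp1 n⟩
    rw [tendsto_iff_norm_sub_tendsto_zero]
    exact squeeze_zero (fun n => norm_nonneg _) (fun n => (hp2 n).le) tendsto_inv_succ
  obtain ⟨φ, hφ, h, hhH, hconv⟩ := hlimit p i hApp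
  have hen : ∀ n, ‖dir c r (p (φ n)) (i (φ n))‖ ≤ 1 := fun n => norm_dir_le hr (hp3 _)
  have hh1 : ‖h‖ ≤ 1 := by
    by_contra hcon
    push Not at hcon
    obtain ⟨f, hf, hf2⟩ := hN2 h 1 hcon
    have h3 := hC _ _ hconv f hf
    have h4 : f h ≤ 1 := le_of_tendsto h3 (Eventually.of_forall fun n =>
      (app_le (hN1 f hf) _).trans (hen n))
    linarith
  have hlim : Tendsto (fun n => ‖dir c r (p (φ n)) (i (φ n)) - h‖) atTop (𝓝 2) := by
    rw [Metric.tendsto_atTop]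
    intro η hη
    obtain ⟨s, hs⟩ := hd.exists_dist_lt (⟨h, hhH⟩ : H) (by positivity : 0 < η / 2)
    have hs' : ‖(d s : E) - h‖ < η / 2 := by
      rw [dist_comm, Subtype.dist_eq, dist_eq_norm] at hs
      exact hs
    obtain ⟨M, hM⟩ := (Metric.tendsto_atTop.1 tendsto_inv_succ) (η / 2) (by positivity)
    refine ⟨max s M, fun n hn => ?_⟩
    have hφn : n ≤ φ n := hφ.id_le n
    have hsn : s ≤ φ n := ((le_max_left _ _).trans hn).trans hφn
    have hMn : M ≤ φ n := ((le_max_right _ _).trans hn).trans hφn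
    have h3 := hp5 (φ n) s hsn
    have h4 := hM (φ n) hMn
    rw [Real.dist_eq, sub_zero, abs_of_pos (by positivity)] at h4
    have h5 : ‖dir c r (p (φ n)) (i (φ n)) - (d s : E)‖
        ≤ ‖dir c r (p (φ n)) (i (φ n)) - h‖ + ‖(d s : E) - h‖ := by
      calc ‖dir c r (p (φ n)) (i (φ n)) - (d s : E)‖
          = ‖(dir c r (p (φ n)) (i (φ n)) - h) - ((d s : E) - h)‖ := by congr 1; abel
        _ ≤ _ := norm_sub_le _ _
    have h6 : ‖dir c r (p (φ n)) (i (φ n)) - h‖ ≤ 2 := by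
      refine (norm_sub_le _ _).trans ?_
      linarith [hen n]
    rw [Real.dist_eq, abs_lt]
    constructor <;> linarith
  refine ⟨fun n => dir c r (p (φ n)) (i (φ n)), h, hen, le_antisymm hh1 ?_, hconv, hlim⟩
  have h7 : (2 : ℝ) ≤ 1 + ‖h‖ := le_of_tendsto hlim (Eventually.of_forall fun n =>
    (norm_sub_le _ _).trans (by linarith [hen n]))
  linarith

/-- A normed space with separable dual is separable. -/
lemma separable_of_dual {F : Type u} [NormedAddCommGroup F] [NormedSpace ℝ F]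
    [TopologicalSpace.SeparableSpace (F →L[ℝ] ℝ)] : TopologicalSpace.SeparableSpace F := by
  set d : ℕ → (F →L[ℝ] ℝ) := TopologicalSpace.denseSeq (F →L[ℝ] ℝ) with hd
  have hy : ∀ n, ∃ y : F, ‖y‖ ≤ 1 ∧ ‖d n‖ / 2 ≤ d n y := by
    intro n
    by_cases h0 : ‖d n‖ = 0
    · exact ⟨0, by simp, by simp [h0]⟩
    have hpos : 0 < ‖d n‖ := lt_of_le_of_ne (norm_nonneg _) (Ne.symm h0)
    obtain ⟨y, hy1, hy2⟩ := (d n).exists_lt_apply_of_lt_opNorm (half_lt_self hpos)
    rcases le_total 0 (d n y) with h | h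
    · rw [Real.norm_eq_abs, abs_of_nonneg h] at hy2
      exact ⟨y, hy1.le, hy2.le⟩
    · rw [Real.norm_eq_abs, abs_of_nonpos h] at hy2
      exact ⟨-y, by rw [norm_neg]; exact hy1.le, by rw [map_neg]; exact hy2.le⟩
  choose y hy1 hy2 using hy
  set M : Submodule ℝ F := (Submodule.span ℝ (range y)).topologicalClosure with hM
  have hMtop : M = ⊤ := by
    by_contra hne
    obtain ⟨z, hz⟩ : ∃ z : F, z ∉ M := by
      by_contra hcon
      push Not at hcon
      exact hne (Submodule.eq_top_iff'.2 hcon)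
    have hMc : IsClosed (M : Set F) := Submodule.isClosed_topologicalClosure _
    obtain ⟨f, u, hf1, hf2⟩ := geometric_hahn_banach_closed_point M.convex hMc hz
    have hf0 : ∀ m ∈ M, f m = 0 := by
      intro m hm
      by_contra hfm
      have h3 : f ((u / f m) • m) < u := hf1 _ (M.smul_mem _ hm)
      rw [map_smul, smul_eq_mul, div_mul_cancel₀ _ hfm] at h3
      exact lt_irrefl _ h3
    have hfz : f z ≠ 0 := by
      have h3 := hf1 0 M.zero_mem
      rw [map_zero] at h3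
      linarith
    have hfn : 0 < ‖f‖ := by
      rw [norm_pos_iff]
      rintro rfl
      exact hfz rfl
    obtain ⟨n, hn⟩ := (TopologicalSpace.denseRange_denseSeq (F →L[ℝ] ℝ)).exists_dist_lt f
      (by positivity : 0 < ‖f‖ / 4)
    rw [dist_eq_norm] at hn
    have h4 : f (y n) = 0 := hf0 _ (Submodule.le_topologicalClosure _
      (Submodule.subset_span ⟨n, rfl⟩))
    have h5 : ‖d n‖ / 2 ≤ ‖f - d n‖ := by
      have h6 : |(f - d n) (y n)| ≤ ‖f - d n‖ := by
        calc |(f - d n) (y n)| = ‖(f - d n) (y n)‖ := rfl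
          _ ≤ ‖f - d n‖ * ‖y n‖ := (f - d n).le_opNorm _
          _ ≤ ‖f - d n‖ * 1 := by gcongr; exact hy1 n
          _ = ‖f - d n‖ := mul_one _
      rw [_root_.sub_apply, h4, zero_sub, abs_neg] at h6
      exact (hy2 n).trans ((le_abs_self _).trans h6)
    have h7 : ‖f‖ ≤ ‖f - d n‖ + ‖d n‖ := by
      calc ‖f‖ = ‖(f - d n) + d n‖ := by congr 1; abel
        _ ≤ _ := norm_add_le _ _
    have h8 : ‖f - d n‖ < ‖f‖ / 4 := hn
    linarith
  have hsep : TopologicalSpace.IsSeparable (M : Set F) := by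
    rw [hM, Submodule.topologicalClosure_coe]
    exact ((countable_range y).isSeparable.span).closure
  rw [hMtop, Submodule.top_coe] at hsep
  exact TopologicalSpace.isSeparable_univ_iff.1 hsep

end Pool.Agent.Helper31.StarFiniteDual
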