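import Pool.Agent.Helper31.StarFiniteDual2

set_option autoImplicit false
set_option linter.unusedSectionVars false

open Set Metric Filter Topology
open Pool.Agent.Helper50.StarFinite Pool.Agent.Helper31.StarFiniteB

namespace Pool.Agent.Helper31.StarFiniteDual

universe u v w

section iso

variable {E : Type u} [NormedAddCommGroup E] [NormedSpace ℝ E]
variable {ι : Type v} {c : ι → E} {r : ι → ℝ}

/-- Star-finite coverings of separable spaces isometric to a dual space. -/
theorem iso_main [CompleteSpace E] [TopologicalSpace.SeparableSpace E]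
    (hE : ¬ FiniteDimensional ℝ E) (hr : ∀ i, 0 < r i)
    (hcov : (⋃ i, closedBall (c i) (r i)) = univ)
    (hstar : ∀ i, {j : ι | (closedBall (c i) (r i) ∩ closedBall (c j) (r j)).Nonempty}.Finite)
    {F : Type w} [NormedAddCommGroup F] [NormedSpace ℝ F] (Φ : E ≃ₗᵢ[ℝ] (F →L[ℝ] ℝ)) :
    ∃ (e : ℕ → E) (h : E), (∀ n, ‖e n‖ ≤ 1) ∧ ‖h‖ = 1 ∧
      (∀ y : F, Tendsto (fun n => Φ (e n) y) atTop (𝓝 (Φ h y))) ∧
      Tendsto (fun n => ‖e n - h‖) atTop (𝓝 2) := by
  have hs1 : TopologicalSpace.SeparableSpace (F →L[ℝ] ℝ) :=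
    Φ.surjective.denseRange.separableSpace Φ.continuous
  have hs2 : TopologicalSpace.SeparableSpace F := separable_of_dual
  set ev : F → (E →L[ℝ] ℝ) := fun y =>
    (NormedSpace.inclusionInDoubleDual ℝ F y).comp (Φ.toContinuousLinearEquiv : E →L[ℝ] _) with hev
  have hevap : ∀ y v, ev y v = Φ v y := fun y v => rfl
  refine abstract_main (N := {g | ∃ y : F, ‖y‖ ≤ 1 ∧ g = ev y})
    (Conv := fun e h => ∀ y : F, Tendsto (fun n => Φ (e n) y) atTop (𝓝 (Φ h y))) hE hr hcov hstar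
    ?_ ?_ ?_ ?_
  · rintro g ⟨y, hy, rfl⟩
    refine ContinuousLinearMap.opNorm_le_bound _ zero_le_one fun v => ?_
    rw [hevap]
    calc ‖Φ v y‖ ≤ ‖Φ v‖ * ‖y‖ := (Φ v).le_opNorm y
      _ ≤ ‖Φ v‖ * 1 := by gcongr
      _ = 1 * ‖v‖ := by rw [Φ.norm_map]; ring
  · intro v R hR
    rw [← Φ.norm_map] at hR
    obtain ⟨y, hy1, hy2⟩ := (Φ v).exists_lt_apply_of_lt_opNorm hR
    rcases le_total 0 (Φ v y) with h | h
    · rw [Real.norm_eq_abs, abs_of_nonneg h] at hy2
      exact ⟨_, ⟨y, hy1.le, rfl⟩, hy2⟩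
    · rw [Real.norm_eq_abs, abs_of_nonpos h] at hy2
      exact ⟨_, ⟨-y, by rw [norm_neg]; exact hy1.le, rfl⟩, by
        rw [hevap, map_neg]; exact hy2⟩
  · rintro e h hconv g ⟨y, hy, rfl⟩
    exact hconv y
  · intro e he
    have h1 := WeakDual.isSeqCompact_closedBall ℝ F (0 : F →L[ℝ] ℝ) 1
    obtain ⟨a, -, φ, hφ, hlim⟩ := h1 (x := fun n => StrongDual.toWeakDual (Φ (e n))) (by
      intro n
      show Φ (e n) ∈ closedBall (0 : F →L[ℝ] ℝ) 1
      rw [mem_closedBall, dist_zero_right, Φ.norm_map]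
      exact he n)
    refine ⟨φ, hφ, Φ.symm (WeakDual.toStrongDual a), fun y => ?_⟩
    rw [Φ.apply_symm_apply]
    exact ((WeakDual.eval_continuous y).tendsto a).comp hlim

end iso

section dual

variable {F : Type u} [NormedAddCommGroup F] [NormedSpace ℝ F]
variable {ι : Type v} {c : ι → (F →L[ℝ] ℝ)} {r : ι → ℝ}

/-- Star-finite coverings of separable dual spaces. -/
theorem dual_main [TopologicalSpace.SeparableSpace (F →L[ℝ] ℝ)]
    (hE : ¬ FiniteDimensional ℝ (F →L[ℝ] ℝ)) (hr : ∀ i, 0 < r i)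
    (hcov : (⋃ i, closedBall (c i) (r i)) = univ)
    (hstar : ∀ i, {j : ι | (closedBall (c i) (r i) ∩ closedBall (c j) (r j)).Nonempty}.Finite) :
    ∃ (e : ℕ → (F →L[ℝ] ℝ)) (h : F →L[ℝ] ℝ), (∀ n, ‖e n‖ ≤ 1) ∧ ‖h‖ = 1 ∧
      (∀ y : F, Tendsto (fun n => e n y) atTop (𝓝 (h y))) ∧
      Tendsto (fun n => ‖e n - h‖) atTop (𝓝 2) := by
  have : TopologicalSpace.SeparableSpace F := separable_of_dual
  refine abstract_main (N := {g | ∃ y : F, ‖y‖ ≤ 1 ∧
    g = NormedSpace.inclusionInDoubleDual ℝ F y})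
    (Conv := fun e h => ∀ y : F, Tendsto (fun n => e n y) atTop (𝓝 (h y))) hE hr hcov hstar
    ?_ ?_ ?_ ?_
  · rintro g ⟨y, hy, rfl⟩
    exact (NormedSpace.double_dual_bound ℝ F y).trans hy
  · intro v R hR
    obtain ⟨y, hy1, hy2⟩ := v.exists_lt_apply_of_lt_opNorm hR
    rcases le_total 0 (v y) with h | h
    · rw [Real.norm_eq_abs, abs_of_nonneg h] at hy2
      exact ⟨_, ⟨y, hy1.le, rfl⟩, hy2⟩
    · rw [Real.norm_eq_abs, abs_of_nonpos h] at hy2
      exact ⟨_, ⟨-y, by rw [norm_neg]; exact hy1.le, rfl⟩, by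
        rw [NormedSpace.dual_def, map_neg]; exact hy2⟩
  · rintro e h hconv g ⟨y, hy, rfl⟩
    exact hconv y
  · intro e he
    have h1 := WeakDual.isSeqCompact_closedBall ℝ F (0 : F →L[ℝ] ℝ) 1
    obtain ⟨a, -, φ, hφ, hlim⟩ := h1 (x := fun n => StrongDual.toWeakDual (e n)) (by
      intro n
      show e n ∈ closedBall (0 : F →L[ℝ] ℝ) 1
      rw [mem_closedBall, dist_zero_right]
      exact he n)
    exact ⟨φ, hφ, WeakDual.toStrongDual a, fun y =>
      ((WeakDual.eval_continuous y).tendsto a).comp hlim⟩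

end dual

section fdd

variable {E : Type u} [NormedAddCommGroup E] [NormedSpace ℝ E]
variable {ι : Type v} {c : ι → E} {r : ι → ℝ}

lemma separable_of_fdd {P : ℕ → E →L[ℝ] E}
    (h1 : ∀ m, FiniteDimensional ℝ (LinearMap.range (P m : E →ₗ[ℝ] E)))
    (h2 : ∀ x, Tendsto (fun m => P m x) atTop (𝓝 x)) : TopologicalSpace.SeparableSpace E := by
  have hs : ∀ m, TopologicalSpace.IsSeparable (LinearMap.range (P m : E →ₗ[ℝ] E) : Set E) := by
    intro m
    have := h1 m
    have : ProperSpace (LinearMap.range (P m : E →ₗ[ℝ] E)) :=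
      FiniteDimensional.proper ℝ _
    exact TopologicalSpace.IsSeparable.of_subtype
      (LinearMap.range (P m : E →ₗ[ℝ] E) : Set E)
  have h3 : TopologicalSpace.IsSeparable
      (closure (⋃ m, (LinearMap.range (P m : E →ₗ[ℝ] E) : Set E))) :=
    (TopologicalSpace.IsSeparable.iUnion hs).closure
  have h4 : closure (⋃ m, (LinearMap.range (P m : E →ₗ[ℝ] E) : Set E)) = univ := by
    rw [eq_univ_iff_forall]
    intro x
    refine mem_closure_of_tendsto (h2 x) (Eventually.of_forall fun m => ?_)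
    exact mem_iUnion.2 ⟨m, ⟨x, rfl⟩⟩
  rw [h4] at h3
  exact TopologicalSpace.isSeparable_univ_iff.1 h3

/-- No star-finite coverings by balls in spaces with a monotone boundedly complete
finite dimensional decomposition and `‖I - P m‖ ≤ lam < 2` infinitely often. -/
theorem fdd_main [CompleteSpace E] (hE : ¬ FiniteDimensional ℝ E) {P : ℕ → E →L[ℝ] E}
    (hP1 : ∀ m, FiniteDimensional ℝ (LinearMap.range (P m : E →ₗ[ℝ] E)))
    (hP2 : ∀ x, Tendsto (fun m => P m x) atTop (𝓝 x))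
    (hP3 : ∀ m n, m ≤ n → ∀ x, P m (P n x) = P m x)
    (hP4 : ∀ m x, ‖P m x‖ ≤ ‖x‖)
    (hP5 : ∀ v : ℕ → E, (∀ m n, m ≤ n → P m (v n) = v m) → (∃ M : ℝ, ∀ n, ‖v n‖ ≤ M) →
      ∃ h, Tendsto v atTop (𝓝 h))
    {lam : ℝ} (hlam : lam < 2) (hP6 : ∃ᶠ m in atTop, ∀ x, ‖x - P m x‖ ≤ lam * ‖x‖)
    (hr : ∀ i, 0 < r i)
    (hcov : (⋃ i, closedBall (c i) (r i)) = univ)
    (hstar : ∀ i, {j : ι | (closedBall (c i) (r i) ∩ closedBall (c j) (r j)).Nonempty}.Finite) :
    False := by
  have : TopologicalSpace.SeparableSpace E := separable_of_fdd hP1 hP2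
  obtain ⟨e, h, he, hh, hconv, hlim⟩ := abstract_main
    (N := {g | ∃ (f : E →L[ℝ] ℝ) (m : ℕ), ‖f‖ ≤ 1 ∧ g = f.comp (P m)})
    (Conv := fun e h => ∀ m, Tendsto (fun n => P m (e n)) atTop (𝓝 (P m h))) hE hr hcov hstar
    (by
      rintro g ⟨f, m, hf, rfl⟩
      refine ContinuousLinearMap.opNorm_le_bound _ zero_le_one fun x => ?_
      calc ‖f (P m x)‖ ≤ ‖f‖ * ‖P m x‖ := f.le_opNorm _
        _ ≤ 1 * ‖x‖ := by gcongr; exact hP4 m x)
    (by
      intro v R hR
      obtain ⟨m, hm⟩ := ((hP2 v).norm.eventually (lt_mem_nhds hR)).exists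
      obtain ⟨f, hf1, hf2⟩ := exists_dual_vector'' ℝ (P m v)
      refine ⟨f.comp (P m), ⟨f, m, hf1, rfl⟩, ?_⟩
      show R < f (P m v)
      rw [hf2]
      simpa using hm)
    (by
      rintro e h hconv g ⟨f, m, hf, rfl⟩
      exact (f.continuous.tendsto _).comp (hconv m))
    (by
      intro e he
      set K : ℕ → Set E := fun m => closure (P m '' closedBall 0 1) with hK
      have hKc : ∀ m, IsCompact (K m) := by
        intro m
        have := hP1 m
        have hp : ProperSpace (LinearMap.range (P m : E →ₗ[ℝ] E)) :=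
          FiniteDimensional.proper ℝ _
        -- inside the range
        have h3 : IsCompact ((fun x : LinearMap.range (P m : E →ₗ[ℝ] E) => (x : E)) ''
            (closedBall 0 1)) := (isCompact_closedBall _ _).image continuous_subtype_val
        refine h3.closure_of_subset ?_
        rintro - ⟨x, hx, rfl⟩
        refine ⟨⟨P m x, ⟨x, rfl⟩⟩, ?_, rfl⟩
        rw [mem_closedBall, dist_zero_right] at hx ⊢
        exact (hP4 m x).trans hx
      have hc : IsCompact (Set.pi univ K) := isCompact_univ_pi hKc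
      obtain ⟨a, -, φ, hφ, hφlim⟩ := hc.isSeqCompact (x := fun n m => P m (e n)) (by
        intro n m _
        exact subset_closure ⟨e n, by rw [mem_closedBall, dist_zero_right]; exact he n, rfl⟩)
      rw [tendsto_pi_nhds] at hφlim
      have ha : ∀ m n, m ≤ n → P m (a n) = a m := by
        intro m n hmn
        have h3 := ((P m).continuous.tendsto (a n)).comp (hφlim n)
        refine tendsto_nhds_unique h3 ?_
        refine (hφlim m).congr fun k => ?_
        exact (hP3 m n hmn _).symm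
      have hb : ∀ n, ‖a n‖ ≤ 1 := fun n => le_of_tendsto (hφlim n).norm
        (Eventually.of_forall fun k => (hP4 n _).trans (he _))
      obtain ⟨h, hh⟩ := hP5 a ha ⟨1, hb⟩
      refine ⟨φ, hφ, h, fun m => ?_⟩
      have h4 : P m h = a m := by
        have h5 := ((P m).continuous.tendsto h).comp hh
        refine tendsto_nhds_unique h5 ?_
        refine tendsto_const_nhds.congr' ?_
        filter_upwards [eventually_ge_atTop m] with n hn
        exact (ha m n hn).symm
      rw [h4]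
      exact hφlim m)
  -- contradiction
  set η := (2 - lam) / 4 with hη
  have hη0 : 0 < η := by rw [hη]; linarith
  have e1 : ∀ᶠ m in atTop, ‖P m h - h‖ < η := by
    have := tendsto_iff_norm_sub_tendsto_zero.1 (hP2 h)
    exact this.eventually (gt_mem_nhds hη0)
  obtain ⟨m, hm1, hm2⟩ := (hP6.and_eventually e1).exists
  have e2 : ∀ᶠ n in atTop, ‖P m (e n) - P m h‖ < η := by
    have := tendsto_iff_norm_sub_tendsto_zero.1 (hconv m)
    exact this.eventually (gt_mem_nhds hη0)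
  have e3 : ∀ᶠ n in atTop, 2 - η < ‖e n - h‖ := hlim.eventually (lt_mem_nhds (by linarith))
  obtain ⟨n, hn1, hn2⟩ := (e2.and e3).exists
  have hlam0 : 0 ≤ lam := by
    have h3 := hm1 h
    rw [hh, mul_one] at h3
    exact (norm_nonneg _).trans h3
  have h4 : ‖e n - P m (e n)‖ ≤ lam := by
    calc ‖e n - P m (e n)‖ ≤ lam * ‖e n‖ := hm1 _
      _ ≤ lam * 1 := mul_le_mul_of_nonneg_left (he n) hlam0
      _ = lam := mul_one _
  have h5 : ‖e n - h‖ ≤ ‖e n - P m (e n)‖ + (‖P m (e n) - P m h‖ + ‖P m h - h‖) := by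
    calc ‖e n - h‖ = ‖(e n - P m (e n)) + ((P m (e n) - P m h) + (P m h - h))‖ := by
          congr 1; abel
      _ ≤ _ := (norm_add_le _ _).trans (by gcongr; exact norm_add_le _ _)
  linarith

end fdd

end Pool.Agent.Helper31.StarFiniteDual
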