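import Pool.Agent.Helper83.CookLevin
import Pool.Agent.Helper81.CompC

/-!
# Simulation of multi-stack Turing machines by polynomial-time functions

Every function computable in polynomial time by a `TM2` machine (in the sense of Mathlib's
`TM2ComputableInPolyTime`) is computed by a stack program in polynomial time.  Consequently the
polynomial-time computable functions are closed under composition, and `P` is closed under
polynomial-time many-one reductions.
-/

namespace Pool.Agent.Helper31.TMSim

open Turing Computability Pool.Agent.Helper81.CC Pool.Agent.Helper83.CL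
open Pool.Agent.Helper78.PT (Prog)

/-! ### Coded configurations as data -/

/-- configurations: state and list of stacks -/
abbrev DC := ℕ × List (List ℕ)

/-- effect of an operation on a stack -/
def updL (a : ℕ) (l : List ℕ) : List ℕ :=
  if a = 0 then l else if a = 1 then l.tail else (a - 1) :: l

/-- one step on data -/
def stepD (M : SM) (x : DC) : DC :=
  (M.nxt x.1 ((x.2.getD (M.act x.1) []).headD 0),
    x.2.take (M.act x.1) ++
      updL (M.op x.1 ((x.2.getD (M.act x.1) []).headD 0)) (x.2.getD (M.act x.1) []) ::
      x.2.drop (M.act x.1 + 1))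

theorem PT_updL {α : Type} [ToData α] {a : α → ℕ} {l : α → List ℕ} (ha : PolyTime a)
    (hl : PolyTime l) : PolyTime (fun x => updL (a x) (l x)) := by
  unfold updL
  fun_prop

theorem PT_stepD (M : SM) : PolyTime (stepD M) := by
  have h1 : PolyTime (fun x : DC => M.act x.1) := SM.PT_act M (by fun_prop)
  have h2 : PolyTime (fun x : DC => x.2.getD (M.act x.1) []) :=
    PolyTime.getD (by fun_prop) h1 (by fun_prop)
  have h3 : PolyTime (fun x : DC => (x.2.getD (M.act x.1) []).headD 0) :=
    PolyTime.headD h2 (by fun_prop)
  have h4 : PolyTime (fun x : DC => M.nxt x.1 ((x.2.getD (M.act x.1) []).headD 0)) :=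
    SM.PT_nxt M (by fun_prop) h3
  have h5 : PolyTime (fun x : DC => M.op x.1 ((x.2.getD (M.act x.1) []).headD 0)) :=
    SM.PT_op M (by fun_prop) h3
  exact PolyTime.pair h4 (PolyTime.append (PolyTime.take h1 (by fun_prop))
    (PolyTime.list_cons (PT_updL h5 h2) (PolyTime.drop (PolyTime.succ h1) (by fun_prop))))

/-! ### Sizes -/

theorem sz_getD {β : Type} [ToData β] (l : List β) (n : ℕ) (d : β) :
    sz (l.getD n d) ≤ sz l + sz d := by
  rcases Nat.lt_or_ge n l.length with h | h
  · rw [List.getD_eq_getElem _ _ h]
    have := sz_le_of_mem (List.getElem_mem h)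
    omega
  · rw [List.getD_eq_default _ _ h]
    omega

theorem sz_updL (a : ℕ) (l : List ℕ) : sz (updL a l) ≤ sz l + 2 * a := by
  unfold updL
  split_ifs with h1 h2
  · omega
  · cases l with
    | nil => simp
    | cons b l => simp; omega
  · simp only [sz_cons, sz_nat]
    omega

/-- the constant for the increase of the size in one step -/
noncomputable def cst (M : SM) : ℕ := sz M.opL + sz M.nxtL + 10

theorem op_le (M : SM) (q o : ℕ) : 2 * M.op q o + 1 ≤ sz M.opL + 2 := by
  have h1 := sz_getD (M.opL.getD q []) o 0
  have h2 := sz_getD M.opL q []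
  simp only [sz_nat, sz_nil] at h1 h2
  rw [SM.op]
  omega

theorem nxt_le (M : SM) (q o : ℕ) : 2 * M.nxt q o + 1 ≤ sz M.nxtL + 2 := by
  have h1 := sz_getD (M.nxtL.getD q []) o 0
  have h2 := sz_getD M.nxtL q []
  simp only [sz_nat, sz_nil] at h1 h2
  rw [SM.nxt]
  omega

theorem sz_stepD (M : SM) (x : DC) : sz (stepD M x) ≤ sz x + cst M := by
  obtain ⟨q, S⟩ := x
  have h1 := nxt_le M q ((S.getD (M.act q) []).headD 0)
  have h2 := op_le M q ((S.getD (M.act q) []).headD 0)
  unfold stepD
  simp only [sz_pair, sz_nat, cst]
  set o := M.op q ((S.getD (M.act q) []).headD 0) with ho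
  have h3 := sz_updL o (S.getD (M.act q) [])
  set s := S.getD (M.act q) [] with hs
  have h4 := sz_append (S.take (M.act q)) (updL o s :: S.drop (M.act q + 1))
  simp only [sz_cons] at h4
  rcases Nat.lt_or_ge (M.act q) S.length with h | h
  · have h5 : S = S.take (M.act q) ++ s :: S.drop (M.act q + 1) := by
      rw [hs, List.getD_eq_getElem _ _ h]
      simp
    have h6 := sz_append (S.take (M.act q)) (s :: S.drop (M.act q + 1))
    rw [← h5] at h6
    simp only [sz_cons] at h6
    omega
  · have h5 : S.take (M.act q) = S := List.take_of_length_le h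
    have h6 : S.drop (M.act q + 1) = [] := List.drop_of_length_le (by omega)
    have h7 : s = [] := by rw [hs, List.getD_eq_default _ _ h]
    rw [h5, h6] at h4 ⊢
    rw [h7] at h1 h3 h4 ⊢
    simp only [sz_nil] at h3 h4
    omega

theorem sz_iter (M : SM) (x : DC) (k : ℕ) : sz ((stepD M)^[k] x) ≤ sz x + k * cst M := by
  induction k with
  | zero => simp
  | succ k ih =>
    rw [Function.iterate_succ_apply']
    have := sz_stepD M ((stepD M)^[k] x)
    have h2 : (k + 1) * cst M = k * cst M + cst M := by ring
    omega

/-! ### Correctness -/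

/-- the relation between abstract and data configurations -/
structure RelD (nK : ℕ) (C : SM.Cf) (x : DC) : Prop where
  st : x.1 = C.1
  len : x.2.length = nK
  cell : ∀ k i, k < nK → (x.2.getD k []).getD i 0 = C.2 k i
  pos : ∀ l ∈ x.2, ∀ s ∈ l, 0 < s

theorem updL_getD (a : ℕ) (l : List ℕ) (i : ℕ) :
    (updL a l).getD i 0 = SM.upd a (fun i => l.getD i 0) i := by
  unfold updL SM.upd
  split_ifs with h1 h2 h3
  · rfl
  · cases l <;> simp
  · subst h3; rfl
  · obtain ⟨j, rfl⟩ := Nat.exists_eq_succ_of_ne_zero h3
    simp

theorem updL_pos (a : ℕ) (l : List ℕ) (hl : ∀ s ∈ l, 0 < s) : ∀ s ∈ updL a l, 0 < s := by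
  unfold updL
  split_ifs with h1 h2
  · exact hl
  · intro s hs
    exact hl s (List.mem_of_mem_tail hs)
  · intro s hs
    rcases List.mem_cons.1 hs with rfl | hs
    · omega
    · exact hl s hs

theorem RelD.step {M : SM} {nQ nK nG : ℕ} (hM : M.Bounded nQ nK nG) {C : SM.Cf} {x : DC}
    (hC : C.1 < nQ) (h : RelD nK C x) : RelD nK (M.step C) (stepD M x) := by
  obtain ⟨q, S⟩ := x
  obtain ⟨hst, hlen, hcell, hpos⟩ := h
  simp only at hst hlen hcell hpos
  subst hst
  have ha : M.act C.1 < S.length := by rw [hlen]; exact hM.act_lt _ hC
  have ha' : M.act C.1 < nK := hM.act_lt _ hC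
  have htop : (S.getD (M.act C.1) []).headD 0 = C.2 (M.act C.1) 0 := by
    rw [← hcell _ _ ha']
    cases S.getD (M.act C.1) [] <;> rfl
  have hset : stepD M (C.1, S) = (M.nxt C.1 (C.2 (M.act C.1) 0),
      S.set (M.act C.1) (updL (M.op C.1 (C.2 (M.act C.1) 0)) (S.getD (M.act C.1) []))) := by
    unfold stepD
    simp only
    rw [htop, List.set_eq_take_append_cons_drop, if_pos ha]
  rw [hset]
  refine ⟨rfl, by simpa using hlen, ?_, ?_⟩
  · intro k i hk
    simp only [SM.step]
    by_cases hka : k = M.act C.1
    · subst hka
      rw [if_pos rfl]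
      have e : (S.set (M.act C.1) (updL (M.op C.1 (C.2 (M.act C.1) 0))
          (S.getD (M.act C.1) []))).getD (M.act C.1) [] =
          updL (M.op C.1 (C.2 (M.act C.1) 0)) (S.getD (M.act C.1) []) := by
        rw [List.getD_eq_getElem _ _ (by simpa using ha)]
        simp
      rw [e, updL_getD]
      congr 1
      funext j
      exact hcell _ _ ha'
    · rw [if_neg hka]
      have e : (S.set (M.act C.1) (updL (M.op C.1 (C.2 (M.act C.1) 0))
          (S.getD (M.act C.1) []))).getD k [] = S.getD k [] := by
        rw [List.getD_eq_getElem?_getD, List.getElem?_set_ne (Ne.symm hka),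
          ← List.getD_eq_getElem?_getD]
      rw [e, hcell _ _ hk]
      simp [SM.upd]
  · intro l hl
    rcases List.mem_or_eq_of_mem_set hl with h1 | h1
    · exact hpos l h1
    · subst h1
      apply updL_pos
      apply hpos
      rw [List.getD_eq_getElem _ _ ha]
      exact List.getElem_mem _

theorem RelD.iter {M : SM} {nQ nK nG : ℕ} (hM : M.Bounded nQ nK nG) {C : SM.Cf} {x : DC}
    (hC : ∀ t, (M.step^[t] C).1 < nQ) (h : RelD nK C x) (t : ℕ) :
    RelD nK (M.step^[t] C) ((stepD M)^[t] x) := by
  induction t with
  | zero => exact h
  | succ t ih =>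
    rw [Function.iterate_succ_apply', Function.iterate_succ_apply']
    exact ih.step hM (hC t)

/-! ### From codes of lists of bits to raw strings -/

/-- the body of the decoding loop -/
def decBody : Prog :=
  .ifTop 0 .skip (.seq (.pop 0) (.push 2 false))
    (.seq (.pop 0) (.seq (.pop 0) (.seq (.pop 0) (.push 2 true))))

theorem run_decLoop : ∀ (l w : List Bool),
    Run (.loop 0 .skip decBody) (st [encOf (List Bool) l, [], w])
      (8 * l.length + 3) (st [[], [], l.reverse ++ w])
  | [], w => by
    have := run_loopFalse (L := [encOf (List Bool) [], [], w]) (k := 0) (pf := .skip)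
      (pt := decBody) [] (by simp) (by simp [encOf_listBool_nil]) (run_skip _)
      (run_loopNil (by simp))
    exact (by simpa using this : Run (.loop 0 .skip decBody)
      (st [encOf (List Bool) [], [], w]) (1 + 1 + 1) (st [[], [], w])).mono (by simp)
  | false :: l, w => by
    have ih := run_decLoop l (false :: w)
    have h1 := run_pop (L := [false :: encOf (List Bool) l, [], w]) 0 (by simp)
    have h2 := run_push (L := [encOf (List Bool) l, [], w]) 2 false (by simp)
    simp at h1 h2
    have h3 := run_ifFalse (L := [false :: encOf (List Bool) l, [], w]) (k := 0) (pe := .skip)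
      (pt := .seq (.pop 0) (.seq (.pop 0) (.seq (.pop 0) (.push 2 true)))) _
      (by simp; rfl) (h1.seq h2)
    have := run_loopTrue (L := [encOf (List Bool) (false :: l), [], w]) (k := 0) (pf := .skip)
      (pt := decBody) (false :: encOf (List Bool) l) (by simp)
      (by rw [enc_listBool_cons]; simp) (by simpa [decBody] using h3) ih
    refine Run.mono (by simpa using this) ?_
    simp
    omega
  | true :: l, w => by
    have ih := run_decLoop l (true :: w)
    have h1 := run_pop (L := [true :: false :: false :: encOf (List Bool) l, [], w]) 0 (by simp)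
    have h2 := run_pop (L := [false :: false :: encOf (List Bool) l, [], w]) 0 (by simp)
    have h3 := run_pop (L := [false :: encOf (List Bool) l, [], w]) 0 (by simp)
    have h4 := run_push (L := [encOf (List Bool) l, [], w]) 2 true (by simp)
    simp at h1 h2 h3 h4
    have h5 := run_ifTrue (L := [true :: false :: false :: encOf (List Bool) l, [], w]) (k := 0)
      (pe := .skip) (pf := .seq (.pop 0) (.push 2 false)) _ (by simp; rfl)
      (h1.seq (h2.seq (h3.seq h4)))
    have := run_loopTrue (L := [encOf (List Bool) (true :: l), [], w]) (k := 0) (pf := .skip)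
      (pt := decBody) (true :: false :: false :: encOf (List Bool) l) (by simp)
      (by rw [enc_listBool_cons]; simp) (by simpa [decBody] using h5) ih
    refine Run.mono (by simpa using this) ?_
    simp
    omega

theorem length_le_encOf (l : List Bool) : l.length ≤ (encOf (List Bool) l).length :=
  length_le_sz l

/-- The code of a list of bits can be converted into a raw string. -/
theorem scomp_toString : SComp (encOf (List Bool)) (fun x : List Bool => x) (fun x => x) := by
  refine SComp.mk' 2 (.seq (.loop 0 .skip decBody) (mv 2 0))
    ((8 * Polynomial.X + 3) + (2 * Polynomial.X + 1)) (fun x => ?_)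
  have h1 := run_decLoop x []
  have h2 := run_mv (L := [[], [], x.reverse]) 2 0 (by simp) (by simp) (by simp)
  simp at h1 h2
  have := h1.seq h2
  simp only [List.replicate]
  refine this.mono ?_
  have := length_le_encOf x
  simp only [Polynomial.eval_add, Polynomial.eval_mul, Polynomial.eval_X, Polynomial.eval_one,
    Polynomial.eval_ofNat]
  omega

/-! ### The simulation -/

theorem scomp_of_polyTimeComputable {α β : Type} {ea : α → List Bool} {eb : β → List Bool}
    {f : α → β} (h : PolyTimeComputable ea eb f) : SComp ea eb f := by
  obtain ⟨h⟩ := h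
  set tm := h.tm with htm
  set gt : tm.Γ tm.k₁ := h.outputAlphabet.invFun true with hgt
  obtain ⟨ql, kl, gl, hcl, hmain, hin, hextra⟩ := closed_exists tm ⟨tm.k₁, gt⟩
  obtain ⟨D, hD⟩ := exists_depth tm
  set M : SM := codeM tm.m tm.k₀ ql kl gl with hM
  set q0 := qc ql (some (tm.m tm.main), tm.initialState) with hq0
  set cf := cellc gl tm.k₀ (some (h.inputAlphabet.invFun false)) with hcf
  set ct := cellc gl tm.k₀ (some (h.inputAlphabet.invFun true)) with hct
  set acc := cellc gl tm.k₁ (some gt) with hacc
  have hbc : ∀ b, SM.bc cf ct b = cellc gl tm.k₀ (some (h.inputAlphabet.invFun b)) := by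
    intro b; cases b <;> rfl
  have hbcpos : ∀ b, 0 < SM.bc cf ct b := by
    intro b; rw [hbc]; simp [cellc]
  -- the initial configuration
  set ini0 : List Bool → DC := fun x => (q0, (List.range kl.length).map
    (fun k => if k = kc kl tm.k₀ then x.map (SM.bc cf ct) else [])) with hini0
  set T : List Bool → ℕ := fun x => D * h.time.eval x.length with hT
  set F : List Bool → List Bool := fun x =>
    ((((stepD M)^[T x] (ini0 x)).2.getD (kc kl tm.k₁) []).map (fun s => decide (s = acc))) with hF
  have hTP : PolyTime T := PolyTime.mul (PolyTime.const D) (PT_eval h.time (by fun_prop))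
  have hiniP : PolyTime ini0 := by
    have h1 : PolyTime (fun z : (List Bool × ℕ) × Bool => SM.bc cf ct z.2) := by
      unfold SM.bc
      fun_prop
    have h2 : PolyTime (fun z : List Bool × ℕ => z.1.map (SM.bc cf ct)) :=
      PolyTime.list_map (f := fun _ b => SM.bc cf ct b) (by fun_prop) h1
    refine PolyTime.pair (PolyTime.const _) (PolyTime.list_map
      (f := fun (x : List Bool) (k : ℕ) => if k = kc kl tm.k₀ then x.map (SM.bc cf ct) else []) (by fun_prop) ?_)
    exact PolyTime.itep (by fun_prop) h2 (by fun_prop)
  have hiter : PolyTime (fun x => (stepD M)^[T x] (ini0 x)) := by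
    refine PolyTime.iterate_bd (step := fun _ s => stepD M s) hTP hiniP
      (PolyTime.comp (PT_stepD M) (by fun_prop)) (B := fun x => sz (ini0 x) + T x * cst M)
      (hiniP.bd.add ((PBd.nat hTP).mul (PBd.const _))) ?_
    intro x k hk
    refine (sz_iter M (ini0 x) k).trans ?_
    exact Nat.add_le_add_left (Nat.mul_le_mul_right _ hk) _
  have hFP : PolyTime F := by
    refine PolyTime.list_map (f := fun _ s => decide (s = acc))
      (PolyTime.getD (PolyTime.snd hiter) (by fun_prop) (by fun_prop)) (by fun_prop)
  have key : ∀ a, F (ea a) = eb (f a) := by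
    intro a
    set x := ea a with hx
    set y := eb (f a) with hy
    set c0 := initList tm (List.map h.inputAlphabet.invFun x) with hc0
    set C0 := SM.initC q0 (kc kl tm.k₀) (x.map (SM.bc cf ct)) with hC0
    have hrel : Rel ql kl gl (conv tm.m c0) C0 := by
      refine ⟨hmain, ?_, rfl, ?_⟩
      · intro k g hg
        by_cases hk : k = tm.k₀
        · subst hk
          exact hin g
        · have : c0.stk k = [] := initList_stk' tm _ hk
          have hg' : g ∈ c0.stk k := hg
          rw [this] at hg'
          simp at hg'
      · intro k i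
        by_cases hk : k = tm.k₀
        · subst hk
          have h1 : (conv tm.m c0).2 tm.k₀ =
            List.map h.inputAlphabet.invFun x := initList_stk tm _
          rw [h1]
          show (if kc kl tm.k₀ = kc kl tm.k₀ then _ else _) = _
          rw [if_pos rfl]
          exact getD_map_cellc gl tm.k₀ _ _ hbc _ i
        · have h1 : (conv tm.m c0).2 k = [] := initList_stk' tm _ hk
          rw [h1]
          show (if kc kl k = kc kl tm.k₀ then _ else _) = _
          rw [if_neg (fun h' => hk (kc_inj hcl.kl h'))]
          rfl
    have hrelD : RelD kl.length C0 (ini0 x) := by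
      refine ⟨rfl, by simp [hini0], ?_, ?_⟩
      · intro k i hk
        have e : ((List.range kl.length).map
            (fun k => if k = kc kl tm.k₀ then x.map (SM.bc cf ct) else [])).getD k [] =
            if k = kc kl tm.k₀ then x.map (SM.bc cf ct) else [] := by
          rw [List.getD_eq_getElem _ _ (by simpa using hk)]
          simp
        show (((List.range kl.length).map
            (fun k => if k = kc kl tm.k₀ then x.map (SM.bc cf ct) else [])).getD k []).getD i 0 =
          if k = kc kl tm.k₀ then (x.map (SM.bc cf ct)).getD i 0 else 0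
        rw [e]
        split_ifs <;> simp
      · intro l hl s hs
        simp only [hini0, List.mem_map, List.mem_range] at hl
        obtain ⟨k, _, rfl⟩ := hl
        split_ifs at hs
        · obtain ⟨b, _, rfl⟩ := List.mem_map.1 hs
          exact hbcpos b
        · simp at hs
    obtain ⟨⟨s, hs⟩, hsle⟩ := h.outputsFun a
    have hs' : (flip bind (TM2.step tm.m))^[s] (some c0) =
        some (haltList tm (List.map h.outputAlphabet.invFun y)) := hs
    obtain ⟨d, hd, hd'⟩ := micro_run tm.m hD s _ _ hs'
    have hdT : d ≤ T x := hd.trans (Nat.mul_le_mul_left D hsle)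
    have hfinal : (micro tm.m)^[T x] (conv tm.m c0) =
        conv tm.m (haltList tm (List.map h.outputAlphabet.invFun y)) := by
      rw [show T x = (T x - d) + d by omega, Function.iterate_add_apply, hd']
      exact micro_halt tm.m _ rfl _
    have hlt : ∀ t, (M.step^[t] C0).1 < ql.length := by
      intro t
      have h1 := hrel.iter (k0 := tm.k₀) hcl t
      rw [← hM] at h1
      rw [h1.st]
      exact qc_lt h1.mem
    have hDT := hrelD.iter (codeM_bounded hcl) hlt (T x)
    have hrelT := hrel.iter (k0 := tm.k₀) hcl (T x)
    rw [← hM] at hrelT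
    rw [hfinal] at hrelT
    have hstk : (conv tm.m (haltList tm (List.map h.outputAlphabet.invFun y))).2 tm.k₁ =
        List.map h.outputAlphabet.invFun y := haltList_stk tm _
    have hk1 : kc kl tm.k₁ < kl.length := kc_lt (hcl.kl _)
    -- the output stack
    set L := (((stepD M)^[T x] (ini0 x)).2.getD (kc kl tm.k₁) []) with hL
    have hLpos : ∀ s ∈ L, 0 < s := by
      apply hDT.pos
      have hl : kc kl tm.k₁ < ((stepD M)^[T x] (ini0 x)).2.length := by
        rw [hDT.len]; exact hk1
      rw [hL, List.getD_eq_getElem _ _ hl]
      exact List.getElem_mem _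
    have hLcell : ∀ i, L.getD i 0 =
        cellc gl tm.k₁ ((List.map h.outputAlphabet.invFun y)[i]?) := by
      intro i
      rw [hL, hDT.cell _ _ hk1, hrelT.cell, hstk]
    have hlen : L.length = y.length := by
      apply le_antisymm
      · by_contra hcon
        push Not at hcon
        have h1 := hLcell y.length
        rw [List.getElem?_eq_none (by simp)] at h1
        rw [List.getD_eq_getElem _ _ hcon] at h1
        have h2 := hLpos _ (List.getElem_mem hcon)
        simp only [cellc] at h1
        omega
      · by_contra hcon
        push Not at hcon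
        have h1 := hLcell L.length
        rw [List.getD_eq_default _ _ le_rfl,
          List.getElem?_eq_getElem (by simpa using hcon)] at h1
        simp [cellc] at h1
    show L.map (fun s => decide (s = acc)) = y
    apply List.ext_getElem (by simpa using hlen)
    intro i h1 h2
    have h1' : i < L.length := by simpa using h1
    have h3 := hLcell i
    rw [List.getD_eq_getElem _ _ h1', List.getElem?_eq_getElem (by simpa using h2)] at h3
    rw [List.getElem_map] at h3
    rw [List.getElem_map, h3]
    cases hyi : y[i] with
    | true =>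
      simp [hacc, hgt]
    | false =>
      rw [decide_eq_false_iff_not]
      intro h4
      have h5 := cellc_inj gl tm.k₁ hextra h4.symm
      have h6 := h.outputAlphabet.symm.injective h5
      simp at h6
  refine SComp.cast (SComp.comp scomp_toString (SComp.comp hFP.scomp (scomp_enc ea)))
    (fun a => ⟨a, rfl, key a⟩)

/-- Composition of polynomial-time computable functions. -/
theorem polyTimeComputable_comp {α β γ : Type} {ea : α → List Bool} {eb : β → List Bool}
    {ec : γ → List Bool} {f : α → β} {g : β → γ} (hg : PolyTimeComputable eb ec g)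
    (hf : PolyTimeComputable ea eb f) : PolyTimeComputable ea ec (fun a => g (f a)) :=
  (SComp.comp (scomp_of_polyTimeComputable hg) (scomp_of_polyTimeComputable hf)).computable

/-- `P` is closed under polynomial-time many-one reductions. -/
theorem inP_of_reduces {A B : Problem} (h : A.Reduces B) (hB : B.InP) : A.InP := by
  obtain ⟨f, hf, hY⟩ := h
  obtain ⟨g, hg, hY'⟩ := hB
  exact ⟨fun x => g (f x), polyTimeComputable_comp hg hf, fun x => (hY x).trans (hY' (f x))⟩

end Pool.Agent.Helper31.TMSim
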